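import Pool.Agent.Helper32.PObj.Comb
import Mathlib.Algebra.Homology.HomotopyCategory.Triangulated
import Mathlib.CategoryTheory.Triangulated.Generators
import Mathlib.CategoryTheory.Shift.ShiftedHom
import Mathlib.CategoryTheory.Linear.Yoneda
import Mathlib.CategoryTheory.Linear.FunctorCategory
import Mathlib.LinearAlgebra.Dual.Lemmas
import Mathlib.Algebra.DirectSum.Module
import Mathlib.LinearAlgebra.FiniteDimensional.Lemmas

/-!
# The linear category `C₀ = B[ε]`

Objects are pairs `(i, m)` with `i : Bool`, `m : ℤ`; a morphism `(i, m) ⟶ (j, m')` is a pair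
`(b, c)` with `b` in the degree `m' - m` part of `B i j` and `c` in the degree `m' - m - 1` part
(the coefficient of `ε`), both pieces being at most one-dimensional.
-/

set_option linter.unusedVariables false

open CategoryTheory

namespace Pool.Agent.Helper32.PObj

universe u

open Classical in
/-- Indicator of a proposition, with values in `k`. -/
noncomputable def ind (k : Type u) [Field k] (p : Prop) : k := if p then 1 else 0

section

variable {k : Type u} [Field k]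

lemma ind_true {p : Prop} (h : p) : ind k p = 1 := by simp [ind, h]

lemma ind_false {p : Prop} (h : ¬ p) : ind k p = 0 := by simp [ind, h]

lemma ind_mul (p q : Prop) : ind k p * ind k q = ind k (p ∧ q) := by
  by_cases hp : p <;> by_cases hq : q <;> simp [ind, hp, hq]

lemma ind_congr {p q : Prop} (h : p ↔ q) : ind k p = ind k q := by
  by_cases hp : p <;> simp [ind, hp, ← h]

lemma of_ind_ne_zero {p : Prop} (h : ind k p ≠ 0) : p := by
  by_contra hp
  exact h (ind_false hp)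

end

/-- The objects of `C₀`. -/
structure Obj (k : Type u) (n : ℕ) (d : ℤ) : Type where
  /-- which of the two objects -/
  i : Bool
  /-- the shift -/
  m : ℤ

variable {k : Type u} [Field k] {n : ℕ} {d : ℤ}

/-- The morphisms of `C₀`. -/
def homSub (X Y : Obj k n d) : Submodule k (k × k) where
  carrier := {p | (p.1 ≠ 0 → SZ n d X.i Y.i (Y.m - X.m)) ∧
    (p.2 ≠ 0 → SZ n d X.i Y.i (Y.m - X.m - 1))}
  zero_mem' := by simp
  add_mem' := by
    rintro p q ⟨h₁, h₂⟩ ⟨h₃, h₄⟩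
    refine ⟨fun h => ?_, fun h => ?_⟩
    · by_cases hp : p.1 = 0
      · refine h₃ (fun hq => h ?_)
        simp [hp, hq]
      · exact h₁ hp
    · by_cases hp : p.2 = 0
      · refine h₄ (fun hq => h ?_)
        simp [hp, hq]
      · exact h₂ hp
  smul_mem' := by
    rintro c p ⟨h₁, h₂⟩
    refine ⟨fun h => h₁ (fun hp => h ?_), fun h => h₂ (fun hp => h ?_)⟩
    · simp [hp]
    · simp [hp]

/-- Composition in `C₀`. -/
noncomputable def compFun (hn : 3 ≤ n) {X Y Z : Obj k n d}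
    (f : homSub X Y) (g : homSub Y Z) : homSub X Z :=
  ⟨(ind k (NZZ n d X.i Y.i Z.i (Y.m - X.m) (Z.m - Y.m)) * (g.1.1 * f.1.1),
    ind k (NZZ n d X.i Y.i Z.i (Y.m - X.m - 1) (Z.m - Y.m)) * (g.1.1 * f.1.2) +
      ind k (NZZ n d X.i Y.i Z.i (Y.m - X.m) (Z.m - Y.m - 1)) * (g.1.2 * f.1.1)), by
    refine ⟨fun h => ?_, fun h => ?_⟩
    · exact (of_ind_ne_zero (left_ne_zero_of_mul h)).sz₁₂ hn (by ring)
    · by_cases h' : ind k (NZZ n d X.i Y.i Z.i (Y.m - X.m - 1) (Z.m - Y.m)) * (g.1.1 * f.1.2) = 0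
      · rw [h', zero_add] at h
        exact (of_ind_ne_zero (left_ne_zero_of_mul h)).sz₁₂ hn (by ring)
      · exact (of_ind_ne_zero (left_ne_zero_of_mul h')).sz₁₂ hn (by ring)⟩

lemma compFun_assoc (hn : 3 ≤ n) (hd : d ≠ 0) {X Y Z T : Obj k n d}
    (f : homSub X Y) (g : homSub Y Z) (h : homSub Z T) :
    compFun hn (compFun hn f g) h = compFun hn f (compFun hn g h) := by
  have key : ∀ (z z' z'' y y' : ℤ) (_ : z + z' = y) (_ : z' + z'' = y'),
      ind k (NZZ n d X.i Z.i T.i y z'') * ind k (NZZ n d X.i Y.i Z.i z z') =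
      ind k (NZZ n d X.i Y.i T.i z y') * ind k (NZZ n d Y.i Z.i T.i z' z'') := by
    intro z z' z'' y y' h₁ h₂
    rw [ind_mul, ind_mul]
    apply ind_congr
    rw [and_comm, NZZ.assoc hn hd X.i Y.i Z.i T.i h₁ h₂, and_comm]
  apply Subtype.ext
  simp only [compFun]
  ext
  · dsimp
    linear_combination (h.1.1 * g.1.1 * f.1.1) *
      key (Y.m - X.m) (Z.m - Y.m) (T.m - Z.m) (Z.m - X.m) (T.m - Y.m) (by ring) (by ring)
  · dsimp
    linear_combination (h.1.1 * g.1.1 * f.1.2) *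
      key (Y.m - X.m - 1) (Z.m - Y.m) (T.m - Z.m) (Z.m - X.m - 1) (T.m - Y.m) (by ring) (by ring)
      + (h.1.1 * g.1.2 * f.1.1) *
      key (Y.m - X.m) (Z.m - Y.m - 1) (T.m - Z.m) (Z.m - X.m - 1) (T.m - Y.m - 1)
        (by ring) (by ring)
      + (h.1.2 * g.1.1 * f.1.1) *
      key (Y.m - X.m) (Z.m - Y.m) (T.m - Z.m - 1) (Z.m - X.m) (T.m - Y.m - 1) (by ring) (by ring)

/-- Identities in `C₀`. -/
noncomputable def idFun (X : Obj k n d) : homSub X X :=
  ⟨(1, 0), by
    refine ⟨fun _ => ?_, fun h => (h rfl).elim⟩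
    rw [sub_self]
    exact SZ.zero _⟩

lemma id_compFun (hn : 3 ≤ n) {X Y : Obj k n d} (f : homSub X Y) :
    compFun hn (idFun X) f = f := by
  apply Subtype.ext
  simp only [compFun, idFun]
  ext
  · dsimp
    by_cases h : f.1.1 = 0
    · simp [h]
    · rw [ind_true]
      · simp
      · rw [sub_self]
        exact NZZ.id_left hn (f.2.1 h)
  · dsimp
    by_cases h : f.1.2 = 0
    · simp [h]
    · rw [ind_true (p := NZZ n d X.i X.i Y.i (X.m - X.m) (Y.m - X.m - 1))]
      · simp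
      · rw [sub_self]
        exact NZZ.id_left hn (f.2.2 h)

lemma compFun_id (hn : 3 ≤ n) {X Y : Obj k n d} (f : homSub X Y) :
    compFun hn f (idFun Y) = f := by
  apply Subtype.ext
  simp only [compFun, idFun]
  ext
  · dsimp
    by_cases h : f.1.1 = 0
    · simp [h]
    · rw [ind_true]
      · simp
      · rw [sub_self]
        exact NZZ.id_right hn (f.2.1 h)
  · dsimp
    by_cases h : f.1.2 = 0
    · simp [h]
    · rw [ind_true (p := NZZ n d X.i Y.i Y.i (Y.m - X.m - 1) (Y.m - Y.m))]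
      · simp
      · rw [sub_self]
        exact NZZ.id_right hn (f.2.2 h)

lemma add_compFun (hn : 3 ≤ n) {X Y Z : Obj k n d} (f f' : homSub X Y) (g : homSub Y Z) :
    compFun hn (f + f') g = compFun hn f g + compFun hn f' g := by
  apply Subtype.ext
  rw [Submodule.coe_add]
  simp only [compFun, Submodule.coe_add]
  ext <;> dsimp <;> ring

lemma compFun_add (hn : 3 ≤ n) {X Y Z : Obj k n d} (f : homSub X Y) (g g' : homSub Y Z) :
    compFun hn f (g + g') = compFun hn f g + compFun hn f g' := by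
  apply Subtype.ext
  rw [Submodule.coe_add]
  simp only [compFun, Submodule.coe_add]
  ext <;> dsimp <;> ring

lemma smul_compFun (hn : 3 ≤ n) {X Y Z : Obj k n d} (r : k) (f : homSub X Y) (g : homSub Y Z) :
    compFun hn (r • f) g = r • compFun hn f g := by
  apply Subtype.ext
  rw [Submodule.coe_smul]
  simp only [compFun, Submodule.coe_smul]
  ext <;> dsimp <;> ring

lemma compFun_smul (hn : 3 ≤ n) {X Y Z : Obj k n d} (f : homSub X Y) (r : k) (g : homSub Y Z) :
    compFun hn f (r • g) = r • compFun hn f g := by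
  apply Subtype.ext
  rw [Submodule.coe_smul]
  simp only [compFun, Submodule.coe_smul]
  ext <;> dsimp <;> ring

variable [hn : Fact (3 ≤ n)] [hd : Fact (d ≠ 0)]

noncomputable instance : Category.{u} (Obj k n d) where
  Hom X Y := homSub X Y
  id X := idFun X
  comp f g := compFun hn.out f g
  id_comp f := id_compFun hn.out f
  comp_id f := compFun_id hn.out f
  assoc f g h := compFun_assoc hn.out hd.out f g h

noncomputable instance : Preadditive (Obj k n d) where
  homGroup X Y := inferInstanceAs (AddCommGroup (homSub X Y))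
  add_comp X Y Z f f' g := add_compFun hn.out f f' g
  comp_add X Y Z f g g' := compFun_add hn.out f g g'

noncomputable instance : Linear k (Obj k n d) where
  homModule X Y := inferInstanceAs (Module k (homSub X Y))
  smul_comp X Y Z r f g := smul_compFun hn.out r f g
  comp_smul X Y Z f r g := compFun_smul hn.out f r g

namespace Obj

variable {X Y Z : Obj k n d}

/-- The constant part of a morphism. -/
def c₀ (f : X ⟶ Y) : k := (show homSub X Y from f).1.1

/-- The `ε`-part of a morphism. -/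
def c₁ (f : X ⟶ Y) : k := (show homSub X Y from f).1.2

@[ext]
lemma hom_ext {f g : X ⟶ Y} (h₀ : c₀ f = c₀ g) (h₁ : c₁ f = c₁ g) : f = g :=
  Subtype.ext (Prod.ext h₀ h₁)

/-- Constructor for morphisms. -/
def mk' (x y : k) (hx : x ≠ 0 → SZ n d X.i Y.i (Y.m - X.m))
    (hy : y ≠ 0 → SZ n d X.i Y.i (Y.m - X.m - 1)) : X ⟶ Y :=
  (⟨(x, y), hx, hy⟩ : homSub X Y)

@[simp] lemma c₀_mk' (x y : k) (hx) (hy) : c₀ (mk' (X := X) (Y := Y) x y hx hy) = x := rfl
@[simp] lemma c₁_mk' (x y : k) (hx) (hy) : c₁ (mk' (X := X) (Y := Y) x y hx hy) = y := rfl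

@[simp] lemma c₀_add (f g : X ⟶ Y) : c₀ (f + g) = c₀ f + c₀ g := rfl
@[simp] lemma c₁_add (f g : X ⟶ Y) : c₁ (f + g) = c₁ f + c₁ g := rfl
@[simp] lemma c₀_smul (r : k) (f : X ⟶ Y) : c₀ (r • f) = r * c₀ f := rfl
@[simp] lemma c₁_smul (r : k) (f : X ⟶ Y) : c₁ (r • f) = r * c₁ f := rfl
@[simp] lemma c₀_zero : c₀ (0 : X ⟶ Y) = 0 := rfl
@[simp] lemma c₁_zero : c₁ (0 : X ⟶ Y) = 0 := rfl
@[simp] lemma c₀_neg (f : X ⟶ Y) : c₀ (-f) = - c₀ f := rfl
@[simp] lemma c₁_neg (f : X ⟶ Y) : c₁ (-f) = - c₁ f := rfl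
@[simp] lemma c₀_id : c₀ (𝟙 X) = 1 := rfl
@[simp] lemma c₁_id : c₁ (𝟙 X) = 0 := rfl

lemma c₀_comp (f : X ⟶ Y) (g : Y ⟶ Z) : c₀ (f ≫ g) =
    ind k (NZZ n d X.i Y.i Z.i (Y.m - X.m) (Z.m - Y.m)) * (c₀ g * c₀ f) := rfl

lemma c₁_comp (f : X ⟶ Y) (g : Y ⟶ Z) : c₁ (f ≫ g) =
    ind k (NZZ n d X.i Y.i Z.i (Y.m - X.m - 1) (Z.m - Y.m)) * (c₀ g * c₁ f) +
      ind k (NZZ n d X.i Y.i Z.i (Y.m - X.m) (Z.m - Y.m - 1)) * (c₁ g * c₀ f) := rfl

lemma sz_of_c₀ (f : X ⟶ Y) (h : c₀ f ≠ 0) : SZ n d X.i Y.i (Y.m - X.m) :=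
  (show homSub X Y from f).2.1 h

lemma sz_of_c₁ (f : X ⟶ Y) (h : c₁ f ≠ 0) : SZ n d X.i Y.i (Y.m - X.m - 1) :=
  (show homSub X Y from f).2.2 h

@[simp] lemma c₀_units_smul (r : ℤˣ) (f : X ⟶ Y) : c₀ (r • f) = ((r : ℤ) : k) * c₀ f := by
  obtain rfl | rfl := Int.units_eq_one_or r <;> simp

@[simp] lemma c₁_units_smul (r : ℤˣ) (f : X ⟶ Y) : c₁ (r • f) = ((r : ℤ) : k) * c₁ f := by
  obtain rfl | rfl := Int.units_eq_one_or r <;> simp

lemma c₀_eqToHom (h : X = Y) : c₀ (eqToHom h) = 1 := by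
  subst h; simp

lemma c₁_eqToHom (h : X = Y) : c₁ (eqToHom h) = 0 := by
  subst h; simp

end Obj

end Pool.Agent.Helper32.PObj
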