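import Mathlib.Tactic

set_option linter.unusedVariables false
set_option linter.unusedSimpArgs false

/-!
# The structure constants of the counterexample algebra

Combinatorics of the graded algebra `B` used for pairs of `P^n[d]`-objects.
-/

namespace Pool.Agent.Helper32.PObj

/-- Support of the graded pieces. `false` is the first object, `true` the second one. -/
def Supp (n : ℕ) : Bool → Bool → ℕ → Prop
  | false, false, a => a ≤ n
  | true, true, a => a ≤ n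
  | false, true, a => a ≤ 1
  | true, false, a => n ≤ a + 1 ∧ a ≤ n

/-- `NZ n i j l a b` says that the composite of the basis element `i → j` of weight `a`
and the basis element `j → l` of weight `b` is the basis element `i → l` of weight `a + b`
(and otherwise the composite vanishes). -/
def NZ (n : ℕ) : Bool → Bool → Bool → ℕ → ℕ → Prop
  | false, false, false, a, b => a + b ≤ n
  | true, true, true, a, b => a + b ≤ n
  | false, false, true, a, b => a = 0 ∧ b ≤ 1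
  | false, true, true, a, b => a + b ≤ 1
  | true, false, false, a, b => n ≤ a + 1 ∧ a ≤ n ∧ b = 0
  | true, true, false, a, b => n ≤ b + 1 ∧ a + b ≤ n
  | false, true, false, a, b => a ≤ 1 ∧ n ≤ b + 1 ∧ a + b = n
  | true, false, true, a, b => n ≤ a + 1 ∧ b ≤ 1 ∧ a + b ≤ n

lemma NZ.supp₁ {n : ℕ} {i j l : Bool} {a b : ℕ} (h : NZ n i j l a b) (_hn : 3 ≤ n) :
    Supp n i j a := by
  cases i <;> cases j <;> cases l <;> simp only [NZ, Supp] at * <;> omega

lemma NZ.supp₂ {n : ℕ} {i j l : Bool} {a b : ℕ} (h : NZ n i j l a b) (hn : 3 ≤ n) :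
    Supp n j l b := by
  cases i <;> cases j <;> cases l <;> simp only [NZ, Supp] at * <;> omega

lemma NZ.supp₁₂ {n : ℕ} {i j l : Bool} {a b : ℕ} (h : NZ n i j l a b) (hn : 3 ≤ n) :
    Supp n i l (a + b) := by
  cases i <;> cases j <;> cases l <;> simp only [NZ, Supp] at * <;> omega

lemma NZ.assoc {n : ℕ} (hn : 3 ≤ n) (i j l p : Bool) (a b c : ℕ) :
    (NZ n i j l a b ∧ NZ n i l p (a + b) c) ↔ (NZ n j l p b c ∧ NZ n i j p a (b + c)) := by
  cases i <;> cases j <;> cases l <;> cases p <;> simp only [NZ] <;> omega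

lemma NZ.id_left {n : ℕ} (hn : 3 ≤ n) {i j : Bool} {a : ℕ} (h : Supp n i j a) :
    NZ n i i j 0 a := by
  cases i <;> cases j <;> simp only [NZ, Supp, true_and, and_true] at * <;> omega

lemma NZ.id_right {n : ℕ} (hn : 3 ≤ n) {i j : Bool} {a : ℕ} (h : Supp n i j a) :
    NZ n i j j a 0 := by
  cases i <;> cases j <;> simp only [NZ, Supp, true_and, and_true] at * <;> omega

/-- Degree version of the support. -/
def SZ (n : ℕ) (d : ℤ) (i j : Bool) (z : ℤ) : Prop :=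
  ∃ a : ℕ, Supp n i j a ∧ (a : ℤ) * d = z

/-- Degree version of `NZ`. -/
def NZZ (n : ℕ) (d : ℤ) (i j l : Bool) (z z' : ℤ) : Prop :=
  ∃ a b : ℕ, NZ n i j l a b ∧ (a : ℤ) * d = z ∧ (b : ℤ) * d = z'

variable {n : ℕ} {d : ℤ}

lemma NZZ.sz₁ {i j l : Bool} {z z' : ℤ} (h : NZZ n d i j l z z') (hn : 3 ≤ n) :
    SZ n d i j z := by
  obtain ⟨a, b, h, h₁, h₂⟩ := h
  exact ⟨a, h.supp₁ hn, h₁⟩

lemma NZZ.sz₂ {i j l : Bool} {z z' : ℤ} (h : NZZ n d i j l z z') (hn : 3 ≤ n) :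
    SZ n d j l z' := by
  obtain ⟨a, b, h, h₁, h₂⟩ := h
  exact ⟨b, h.supp₂ hn, h₂⟩

lemma NZZ.sz₁₂ {i j l : Bool} {z z' z'' : ℤ} (h : NZZ n d i j l z z') (hn : 3 ≤ n)
    (hz : z + z' = z'') : SZ n d i l z'' := by
  obtain ⟨a, b, h, h₁, h₂⟩ := h
  exact ⟨a + b, h.supp₁₂ hn, by push_cast; rw [add_mul, h₁, h₂, hz]⟩

lemma mul_right_inj_aux (hd : d ≠ 0) {a b : ℕ} (h : (a : ℤ) * d = (b : ℤ) * d) : a = b := by
  have := mul_right_cancel₀ hd h
  exact_mod_cast this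

lemma NZZ.assoc (hn : 3 ≤ n) (hd : d ≠ 0) (i j l p : Bool) {z z' z'' y y' : ℤ}
    (hy : z + z' = y) (hy' : z' + z'' = y') :
    (NZZ n d i j l z z' ∧ NZZ n d i l p y z'') ↔
      (NZZ n d j l p z' z'' ∧ NZZ n d i j p z y') := by
  constructor
  · rintro ⟨⟨a, b, h, h₁, h₂⟩, ⟨ab, c, h', h₃, h₄⟩⟩
    obtain rfl : ab = a + b := by
      apply mul_right_inj_aux hd
      push_cast
      rw [h₃, add_mul, h₁, h₂, hy]
    obtain ⟨h₅, h₆⟩ := (NZ.assoc hn i j l p a b c).1 ⟨h, h'⟩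
    exact ⟨⟨b, c, h₅, h₂, h₄⟩, ⟨a, b + c, h₆, h₁, by push_cast; rw [add_mul, h₂, h₄, hy']⟩⟩
  · rintro ⟨⟨b, c, h, h₁, h₂⟩, ⟨a, bc, h', h₃, h₄⟩⟩
    obtain rfl : bc = b + c := by
      apply mul_right_inj_aux hd
      push_cast
      rw [h₄, add_mul, h₁, h₂, hy']
    obtain ⟨h₅, h₆⟩ := (NZ.assoc hn i j l p a b c).2 ⟨h, h'⟩
    exact ⟨⟨a, b, h₅, h₃, h₁⟩, ⟨a + b, c, h₆, by push_cast; rw [add_mul, h₁, h₃, hy], h₂⟩⟩

lemma NZZ.id_left (hn : 3 ≤ n) {i j : Bool} {z : ℤ} (h : SZ n d i j z) :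
    NZZ n d i i j 0 z := by
  obtain ⟨a, h, h₁⟩ := h
  exact ⟨0, a, NZ.id_left hn h, by simp, h₁⟩

lemma NZZ.id_right (hn : 3 ≤ n) {i j : Bool} {z : ℤ} (h : SZ n d i j z) :
    NZZ n d i j j z 0 := by
  obtain ⟨a, h, h₁⟩ := h
  exact ⟨a, 0, NZ.id_right hn h, h₁, by simp⟩

lemma SZ.zero (i : Bool) : SZ n d i i 0 :=
  ⟨0, by cases i <;> simp [Supp], by simp⟩

/-- The support of a complementary degree. -/
lemma SZ.dual_iff (hn : 3 ≤ n) (i j : Bool) {z z' : ℤ} (h : z + z' = n * d) :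
    SZ n d i j z ↔ SZ n d j i z' := by
  constructor
  · rintro ⟨a, h₁, h₂⟩
    have ha : a ≤ n := by cases i <;> cases j <;> simp only [Supp] at h₁ <;> omega
    refine ⟨n - a, ?_, ?_⟩
    · cases i <;> cases j <;> simp only [Supp] at * <;> omega
    · push_cast [Nat.cast_sub ha]
      rw [sub_mul, h₂]; linarith
  · rintro ⟨a, h₁, h₂⟩
    have ha : a ≤ n := by cases i <;> cases j <;> simp only [Supp] at h₁ <;> omega
    refine ⟨n - a, ?_, ?_⟩
    · cases i <;> cases j <;> simp only [Supp] at * <;> omega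
    · push_cast [Nat.cast_sub ha]
      rw [sub_mul, h₂]; linarith

/-- Duality: complementary basis elements compose to the socle element. -/
lemma NZZ.of_dual (hn : 3 ≤ n) (i j : Bool) {z z' : ℤ} (h : z + z' = n * d)
    (hz : SZ n d i j z) : NZZ n d i j i z z' := by
  obtain ⟨a, h₁, h₂⟩ := hz
  have ha : a ≤ n := by cases i <;> cases j <;> simp only [Supp] at h₁ <;> omega
  refine ⟨a, n - a, ?_, h₂, ?_⟩
  · cases i <;> cases j <;> simp only [Supp, NZ] at * <;> omega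
  · push_cast [Nat.cast_sub ha]
    rw [sub_mul, h₂]; linarith

end Pool.Agent.Helper32.PObj
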