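import Pool.Agent.Helper32.PObj.Cat

/-!
# The two complexes over `C₀` and the morphisms between their shifts
-/

set_option linter.unusedVariables false

open CategoryTheory

namespace Pool.Agent.Helper32.PObj

universe u

/-- The degree `a` part of `B i j`, as a subspace of `k`. -/
def piece (k : Type u) [Field k] (n : ℕ) (d : ℤ) (i j : Bool) (a : ℤ) : Submodule k k where
  carrier := {x | x ≠ 0 → SZ n d i j a}
  zero_mem' := by simp
  add_mem' := by
    intro x y hx hy h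
    by_cases h' : x = 0
    · exact hy (fun h'' => h (by simp [h', h'']))
    · exact hx h'
  smul_mem' := by
    intro c x hx h
    exact hx (fun h' => h (by simp [h']))

lemma mem_piece {k : Type u} [Field k] {n : ℕ} {d : ℤ} {i j : Bool} {a : ℤ} (x : k) :
    x ∈ piece k n d i j a ↔ (x ≠ 0 → SZ n d i j a) := Iff.rfl

lemma piece_sz {k : Type u} [Field k] {n : ℕ} {d : ℤ} {i j : Bool} {a : ℤ}
    (x : piece k n d i j a) (h : x.1 ≠ 0) : SZ n d i j a := (mem_piece _).1 x.2 h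

variable {k : Type u} [Field k] {n : ℕ} {d : ℤ} [hn : Fact (3 ≤ n)] [hd : Fact (d ≠ 0)]

open Obj

/-- The sign `(-1)^z` as an element of `k`. -/
def sgn (k : Type u) [Field k] (z : ℤ) : k := ((z.negOnePow : ℤ) : k)

@[simp] lemma sgn_zero : sgn k 0 = 1 := by simp [sgn]

lemma sgn_add (a b : ℤ) : sgn k (a + b) = sgn k a * sgn k b := by
  simp [sgn, Int.negOnePow_add]

lemma sgn_mul_self (a : ℤ) : sgn k a * sgn k a = 1 := by
  rw [← sgn_add]
  simp [sgn, Int.negOnePow_even _ (Even.add_self a)]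

lemma sgn_ne_zero (a : ℤ) : sgn k a ≠ 0 := by
  intro h
  have := sgn_mul_self (k := k) a
  rw [h] at this
  simp at this

lemma sgn_eq_one_or (a : ℤ) : sgn k a = 1 ∨ sgn k a = -1 := by
  obtain h | h := Int.units_eq_one_or a.negOnePow <;> simp [sgn, h]

/-- The complex attached to `i`: all objects `(i, m)` with differential `ε`. -/
noncomputable def cplx (i : Bool) : CochainComplex (Obj k n d) ℤ where
  X m := ⟨i, m⟩
  d m m' := if h : m + 1 = m' then
    Obj.mk' 0 1 (by simp) (fun _ => by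
      have : m' - m - 1 = 0 := by omega
      dsimp
      rw [this]
      exact SZ.zero i) else 0
  shape m m' h := dif_neg h
  d_comp_d' m m' m'' h h' := by
    change m + 1 = m' at h
    change m' + 1 = m'' at h'
    rw [dif_pos h, dif_pos h']
    ext
    · simp [c₀_comp]
    · simp [c₁_comp]

@[simp] lemma cplx_X_i (i : Bool) (m : ℤ) : ((cplx (k := k) (n := n) (d := d) i).X m).i = i := rfl
@[simp] lemma cplx_X_m (i : Bool) (m : ℤ) : ((cplx (k := k) (n := n) (d := d) i).X m).m = m := rfl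

lemma cplx_X (i : Bool) (m : ℤ) : (cplx (k := k) (n := n) (d := d) i).X m = ⟨i, m⟩ := rfl

lemma c₀_cplx_d (i : Bool) (m m' : ℤ) :
    c₀ ((cplx (k := k) (n := n) (d := d) i).d m m') = 0 := by
  dsimp [cplx]
  split_ifs <;> simp

lemma c₁_cplx_d (i : Bool) (m m' : ℤ) (h : m + 1 = m') :
    c₁ ((cplx (k := k) (n := n) (d := d) i).d m m') = 1 := by
  dsimp [cplx]
  rw [dif_pos h]
  simp

lemma c₀_shift_d (j : Bool) (a p p' : ℤ) :
    c₀ (((cplx (k := k) (n := n) (d := d) j)⟦a⟧).d p p') = 0 := by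
  change c₀ (a.negOnePow • (cplx (k := k) (n := n) (d := d) j).d (p + a) (p' + a)) = 0
  rw [c₀_units_smul, c₀_cplx_d, mul_zero]

lemma c₁_shift_d (j : Bool) (a p p' : ℤ) (h : p + 1 = p') :
    c₁ (((cplx (k := k) (n := n) (d := d) j)⟦a⟧).d p p') = sgn k a := by
  change c₁ (a.negOnePow • (cplx (k := k) (n := n) (d := d) j).d (p + a) (p' + a)) = _
  rw [c₁_units_smul, c₁_cplx_d _ _ _ (by omega), mul_one]
  rfl

section

variable {i j l : Bool} {a b c : ℤ}

lemma c₀_comp' {X Y Z : Obj k n d} (f : X ⟶ Y) (g : Y ⟶ Z) {i j l : Bool} {z z' : ℤ}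
    (hi : X.i = i) (hj : Y.i = j) (hl : Z.i = l) (hz : Y.m - X.m = z) (hz' : Z.m - Y.m = z') :
    c₀ (f ≫ g) = ind k (NZZ n d i j l z z') * (c₀ g * c₀ f) := by
  subst hi hj hl hz hz'
  exact c₀_comp f g

lemma c₁_comp' {X Y Z : Obj k n d} (f : X ⟶ Y) (g : Y ⟶ Z) {i j l : Bool} {z z' : ℤ}
    (hi : X.i = i) (hj : Y.i = j) (hl : Z.i = l) (hz : Y.m - X.m = z) (hz' : Z.m - Y.m = z') :
    c₁ (f ≫ g) = ind k (NZZ n d i j l (z - 1) z') * (c₀ g * c₁ f) +
      ind k (NZZ n d i j l z (z' - 1)) * (c₁ g * c₀ f) := by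
  subst hi hj hl hz hz'
  exact c₁_comp f g

/-- Composition with the differential of `(cplx j)⟦a⟧`. -/
lemma c₁_comp_shift_d {W : Obj k n d} {p p' : ℤ} (hp : p + 1 = p')
    (f : W ⟶ ((cplx (k := k) (n := n) (d := d) j)⟦a⟧).X p) :
    c₁ (f ≫ ((cplx (k := k) (n := n) (d := d) j)⟦a⟧).d p p') = sgn k a * c₀ f := by
  rw [c₁_comp' f _ (i := W.i) (j := j) (l := j) (z := p + a - W.m) (z' := 1) rfl rfl rfl
    rfl (by change p' + a - (p + a) = 1; omega), c₀_shift_d,
    c₁_shift_d _ _ _ _ hp]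
  by_cases h : c₀ f = 0
  · simp only [h, mul_zero, zero_mul, add_zero]
  · have h₁ : SZ n d W.i j (p + a - W.m) := sz_of_c₀ f h
    rw [ind_true (p := NZZ n d W.i j j (p + a - W.m) (1 - 1))
      (by rw [sub_self]; exact NZZ.id_right hn.out h₁)]
    ring

lemma c₀_comp_shift_d {W : Obj k n d} {p p' : ℤ}
    (f : W ⟶ ((cplx (k := k) (n := n) (d := d) j)⟦a⟧).X p) :
    c₀ (f ≫ ((cplx (k := k) (n := n) (d := d) j)⟦a⟧).d p p') = 0 := by
  rw [c₀_comp, c₀_shift_d]
  ring

/-- Composition with the differential of `cplx i`. -/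
lemma c₁_d_comp {W : Obj k n d} {p p' : ℤ} (hp : p + 1 = p')
    (f : (cplx (k := k) (n := n) (d := d) i).X p' ⟶ W) :
    c₁ ((cplx (k := k) (n := n) (d := d) i).d p p' ≫ f) = c₀ f := by
  rw [c₁_comp' _ f (i := i) (j := i) (l := W.i) (z := 1) (z' := W.m - p') rfl rfl rfl
    (by change p' - p = 1; omega) rfl, c₀_cplx_d,
    c₁_cplx_d _ _ _ hp]
  by_cases h : c₀ f = 0
  · simp only [h, mul_zero, zero_mul, add_zero]
  · have h₁ : SZ n d i W.i (W.m - p') := sz_of_c₀ f h
    rw [ind_true (p := NZZ n d i i W.i (1 - 1) (W.m - p'))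
      (by rw [sub_self]; exact NZZ.id_left hn.out h₁)]
    ring

lemma c₀_d_comp {W : Obj k n d} {p p' : ℤ}
    (f : (cplx (k := k) (n := n) (d := d) i).X p' ⟶ W) :
    c₀ ((cplx (k := k) (n := n) (d := d) i).d p p' ≫ f) = 0 := by
  rw [c₀_comp, c₀_cplx_d]
  ring

/-- The basic morphism `cplx i ⟶ (cplx j)⟦a⟧` with constant coefficient `± x`. -/
noncomputable def basicMap (x : piece k n d i j a) :
    cplx (k := k) (n := n) (d := d) i ⟶ (cplx j)⟦a⟧ where
  f p := Obj.mk' (sgn k (a * p) * x.1) 0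
    (fun h => by
      have := piece_sz x (right_ne_zero_of_mul h)
      change SZ n d i j (p + a - p)
      rwa [add_sub_cancel_left])
    (fun h => (h rfl).elim)
  comm' p p' h := by
    change p + 1 = p' at h
    ext
    · rw [c₀_comp_shift_d, c₀_d_comp]
    · rw [c₁_comp_shift_d h, c₁_d_comp h, c₀_mk', c₀_mk', ← h, mul_add, sgn_add, mul_one]
      ring

@[simp] lemma c₀_basicMap_f (x : piece k n d i j a) (p : ℤ) :
    c₀ ((basicMap x).f p) = sgn k (a * p) * x.1 := rfl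

@[simp] lemma c₁_basicMap_f (x : piece k n d i j a) (p : ℤ) :
    c₁ ((basicMap x).f p) = 0 := rfl

lemma c₀_f_succ (φ : cplx (k := k) (n := n) (d := d) i ⟶ (cplx j)⟦a⟧) {p p' : ℤ}
    (h : p + 1 = p') : c₀ (φ.f p') = sgn k a * c₀ (φ.f p) := by
  have := φ.comm p p'
  rw [← c₁_comp_shift_d h, this, c₁_d_comp h]

lemma c₀_f (φ : cplx (k := k) (n := n) (d := d) i ⟶ (cplx j)⟦a⟧) (p : ℤ) :
    c₀ (φ.f p) = sgn k (a * p) * c₀ (φ.f 0) := by
  induction p using Int.induction_on with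
  | zero => simp
  | succ m hm =>
    rw [c₀_f_succ φ rfl, hm, mul_add, mul_one, sgn_add]
    ring
  | pred m hm =>
    have h₁ := c₀_f_succ φ (p := -(m : ℤ) - 1) (p' := -(m : ℤ)) (by ring)
    have h₂ : c₀ (φ.f (-(m : ℤ) - 1)) = sgn k a * c₀ (φ.f (-(m : ℤ))) := by
      rw [h₁, ← mul_assoc, sgn_mul_self, one_mul]
    rw [h₂, hm, mul_sub, mul_one, sub_eq_add_neg, sgn_add]
    have : sgn k (-a) = sgn k a := by simp [sgn]
    rw [this]
    ring

lemma exists_rec (e : k) (he : e * e = 1) (c : ℤ → k) :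
    ∃ s : ℤ → k, ∀ p, s (p + 1) = c p - e * s p := by
  let posS : ℕ → k := fun m => Nat.rec 0 (fun m s => c m - e * s) m
  let negS : ℕ → k := fun m => Nat.rec 0 (fun m s => e * (c (-(m + 1)) - s)) m
  have hpos : ∀ m : ℕ, posS (m + 1) = c m - e * posS m := fun m => rfl
  have hneg : ∀ m : ℕ, negS (m + 1) = e * (c (-(m + 1)) - negS m) := fun m => rfl
  refine ⟨fun p => if 0 ≤ p then posS p.toNat else negS (-p).toNat, fun p => ?_⟩
  obtain ⟨m, rfl | rfl⟩ := Int.eq_nat_or_neg p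
  · have h₁ : (0 : ℤ) ≤ m + 1 := by positivity
    have h₂ : (0 : ℤ) ≤ m := by positivity
    simp only [h₁, h₂, if_true]
    have e₁ : ((m : ℤ) + 1).toNat = m + 1 := by omega
    have e₂ : ((m : ℤ)).toNat = m := by omega
    rw [e₁, e₂, hpos]
  · obtain _ | m := m
    · simp only [Nat.cast_zero, neg_zero, zero_add]
      have h₁ : (0 : ℤ) ≤ 1 := by norm_num
      simp only [h₁, le_refl, if_true]
      exact hpos 0
    · have h₂ : ¬ (0 : ℤ) ≤ -((m + 1 : ℕ) : ℤ) := by omega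
      have e₂ : (-(-((m + 1 : ℕ) : ℤ))).toNat = m + 1 := by omega
      simp only [h₂, if_false]
      rw [e₂, hneg]
      have key : negS m = c (-((m + 1 : ℕ) : ℤ)) - e * (e * (c (-((m : ℤ) + 1)) - negS m)) := by
        push_cast
        linear_combination (c (-((m : ℤ) + 1)) - negS m) * he
      rw [← key]
      by_cases hm : m = 0
      · subst hm
        simp [posS, negS]
      · have h₁ : ¬ (0 : ℤ) ≤ -((m + 1 : ℕ) : ℤ) + 1 := by omega
        have e₁ : (-(-((m + 1 : ℕ) : ℤ) + 1)).toNat = m := by omega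
        simp only [h₁, if_false]
        rw [e₁]

lemma c₀_f_zero_of_homotopy (φ : cplx (k := k) (n := n) (d := d) i ⟶ (cplx j)⟦a⟧)
    (h : Homotopy φ 0) : c₀ (φ.f 0) = 0 := by
  have := h.comm 0
  rw [dNext_eq _ (show (ComplexShape.up ℤ).Rel 0 1 by simp),
    prevD_eq _ (show (ComplexShape.up ℤ).Rel (-1) 0 by simp)] at this
  rw [this, HomologicalComplex.zero_f, add_zero, c₀_add, c₀_d_comp, c₀_comp_shift_d, add_zero]

/-- The homotopy. -/
lemma nonempty_homotopy_zero (φ : cplx (k := k) (n := n) (d := d) i ⟶ (cplx j)⟦a⟧)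
    (h : c₀ (φ.f 0) = 0) : Nonempty (Homotopy φ 0) := by
  have h' : ∀ p, c₀ (φ.f p) = 0 := fun p => by rw [c₀_f, h, mul_zero]
  obtain ⟨s, hs, hs'⟩ : ∃ s : ℤ → k, (∀ p, s (p + 1) = c₁ (φ.f p) - sgn k a * s p) ∧
      (∀ p, s p ≠ 0 → SZ n d i j (a - 1)) := by
    by_cases hS : SZ n d i j (a - 1)
    · obtain ⟨s, hs⟩ := exists_rec (sgn k a) (sgn_mul_self a) (fun p => c₁ (φ.f p))
      exact ⟨s, hs, fun _ _ => hS⟩
    · refine ⟨fun _ => 0, fun p => ?_, fun p hp => (hp rfl).elim⟩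
      have : c₁ (φ.f p) = 0 := by
        by_contra hc
        have := sz_of_c₁ _ hc
        change SZ n d i j (p + a - p - 1) at this
        rw [add_sub_cancel_left] at this
        exact hS this
      rw [this]
      simp
  exact ⟨{
    hom := fun p q => if hq : q + 1 = p then
      Obj.mk' (s p) 0
        (fun h => by
          have := hs' _ h
          change SZ n d i j (q + a - p)
          have e : q + a - p = a - 1 := by omega
          rwa [e])
        (fun h => (h rfl).elim) else 0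
    zero := fun p q hpq => dif_neg hpq
    comm := fun p => by
      rw [dNext_eq _ (show (ComplexShape.up ℤ).Rel p (p + 1) by simp),
        prevD_eq _ (show (ComplexShape.up ℤ).Rel (p - 1) p by simp), HomologicalComplex.zero_f,
        add_zero]
      rw [dif_pos rfl, dif_pos (by ring)]
      ext
      · rw [h' p, c₀_add, c₀_d_comp, c₀_comp_shift_d, add_zero]
      · rw [c₁_add, c₁_d_comp rfl, c₁_comp_shift_d (by ring), c₀_mk', c₀_mk', hs p]
        ring }⟩

lemma c₀_comp_XIsoOfEq {W : Obj k n d} (K : CochainComplex (Obj k n d) ℤ) {p q : ℤ} (h : p = q)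
    (f : W ⟶ K.X p) : c₀ (f ≫ (K.XIsoOfEq h).hom) = c₀ f := by
  subst h; simp

lemma c₁_comp_XIsoOfEq {W : Obj k n d} (K : CochainComplex (Obj k n d) ℤ) {p q : ℤ} (h : p = q)
    (f : W ⟶ K.X p) : c₁ (f ≫ (K.XIsoOfEq h).hom) = c₁ f := by
  subst h; simp

lemma c₀_comp_comp_XIsoOfEq {W V : Obj k n d} (K : CochainComplex (Obj k n d) ℤ) {p q : ℤ}
    (h : p = q) (f : W ⟶ V) (g : V ⟶ K.X p) :
    c₀ (f ≫ g ≫ (K.XIsoOfEq h).hom) = c₀ (f ≫ g) := by
  subst h; simp

lemma c₁_comp_comp_XIsoOfEq {W V : Obj k n d} (K : CochainComplex (Obj k n d) ℤ) {p q : ℤ}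
    (h : p = q) (f : W ⟶ V) (g : V ⟶ K.X p) :
    c₁ (f ≫ g ≫ (K.XIsoOfEq h).hom) = c₁ (f ≫ g) := by
  subst h; simp

lemma shiftedComp_f {K L M : CochainComplex (Obj k n d) ℤ} (φ : ShiftedHom K L a)
    (ψ : ShiftedHom L M b) (h : b + a = c) (p : ℤ) :
    (ShiftedHom.comp φ ψ h).f p =
      φ.f p ≫ ((shiftFunctor (CochainComplex (Obj k n d) ℤ) a).map ψ).f p ≫
        ((CategoryTheory.shiftFunctorAdd' (CochainComplex (Obj k n d) ℤ) b a c h).inv.app M).f p :=
  rfl

lemma c₀_shiftedComp_f {K L M : CochainComplex (Obj k n d) ℤ} (φ : ShiftedHom K L a)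
    (ψ : ShiftedHom L M b) (h : b + a = c) (p : ℤ) :
    c₀ ((ShiftedHom.comp φ ψ h).f p) =
      c₀ (X := K.X p) (Y := M.X (p + a + b)) (CategoryStruct.comp (X := K.X p) (Y := L.X (p + a))
        (Z := M.X (p + a + b)) (φ.f p) (ψ.f (p + a))) := by
  rw [shiftedComp_f, CochainComplex.shiftFunctorAdd'_inv_app_f']
  exact c₀_comp_comp_XIsoOfEq (W := K.X p) (V := L.X (p + a)) M (p := p + a + b) (q := p + c)
    (by omega) (φ.f p) (ψ.f (p + a))

lemma c₁_shiftedComp_f {K L M : CochainComplex (Obj k n d) ℤ} (φ : ShiftedHom K L a)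
    (ψ : ShiftedHom L M b) (h : b + a = c) (p : ℤ) :
    c₁ ((ShiftedHom.comp φ ψ h).f p) =
      c₁ (X := K.X p) (Y := M.X (p + a + b)) (CategoryStruct.comp (X := K.X p) (Y := L.X (p + a))
        (Z := M.X (p + a + b)) (φ.f p) (ψ.f (p + a))) := by
  rw [shiftedComp_f, CochainComplex.shiftFunctorAdd'_inv_app_f']
  exact c₁_comp_comp_XIsoOfEq (W := K.X p) (V := L.X (p + a)) M (p := p + a + b) (q := p + c)
    (by omega) (φ.f p) (ψ.f (p + a))

lemma basicMap_comp (x : piece k n d i j a) (y : piece k n d j l b) (h : b + a = c)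
    (z : piece k n d i l c)
    (hz : z.1 = sgn k (a * b) * (ind k (NZZ n d i j l a b) * (y.1 * x.1))) :
    ShiftedHom.comp (basicMap x) (basicMap y) h = basicMap z := by
  ext p
  · refine (c₀_shiftedComp_f _ _ h p).trans ?_
    refine (c₀_comp' (X := (cplx i).X p) (Y := (cplx j).X (p + a)) (Z := (cplx l).X (p + a + b))
      _ _ (i := i) (j := j) (l := l) (z := a) (z' := b) rfl rfl rfl
      (add_sub_cancel_left p a) (add_sub_cancel_left (p + a) b)).trans ?_
    refine Eq.trans (b := ind k (NZZ n d i j l a b) * ((sgn k (b * (p + a)) * y.1) *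
      (sgn k (a * p) * x.1))) rfl ?_
    rw [c₀_basicMap_f, hz, ← h]
    have : (b + a) * p = b * p + a * p := by ring
    rw [this, mul_add b p a, sgn_add, sgn_add, mul_comm b a]
    ring
  · refine (c₁_shiftedComp_f _ _ h p).trans ?_
    refine (c₁_comp (X := (cplx i).X p) (Y := (cplx j).X (p + a)) (Z := (cplx l).X (p + a + b))
      _ _).trans ?_
    rw [c₁_basicMap_f]
    have h₁ : c₁ ((basicMap x).f p) = 0 := rfl
    have h₂ : c₁ ((basicMap y).f (p + a)) = 0 := rfl
    refine Eq.trans (b := _ * (_ * 0) + _ * (0 * _)) rfl ?_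
    ring

lemma basicMap_add (x y : piece k n d i j a) :
    basicMap (x + y) = basicMap x + basicMap y := by
  ext p
  · rw [HomologicalComplex.add_f_apply, c₀_add, c₀_basicMap_f, c₀_basicMap_f, c₀_basicMap_f,
      Submodule.coe_add, mul_add]
  · rw [HomologicalComplex.add_f_apply, c₁_add, c₁_basicMap_f, c₁_basicMap_f, c₁_basicMap_f,
      add_zero]

lemma basicMap_smul (r : k) (x : piece k n d i j a) :
    basicMap (r • x) = r • basicMap x := by
  ext p
  · rw [HomologicalComplex.smul_f_apply, c₀_smul, c₀_basicMap_f, c₀_basicMap_f,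
      Submodule.coe_smul, smul_eq_mul]
    ring
  · rw [HomologicalComplex.smul_f_apply, c₁_smul, c₁_basicMap_f, c₁_basicMap_f, mul_zero]

end

end Pool.Agent.Helper32.PObj
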