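import Mathlib.Tactic
import Mathlib.Algebra.Homology.HomotopyCategory.Triangulated
import Mathlib.CategoryTheory.Triangulated.Generators
import Mathlib.CategoryTheory.Shift.ShiftedHom
import Mathlib.Algebra.DirectSum.Module
import Mathlib.LinearAlgebra.Dual.Defs

/-!
# `ℙⁿ[d]`-objects and spherification functors

All the notions used in the statement of the main theorem: algebraic triangulated categories,
Calabi-Yau objects, `ℙⁿ[d]`-objects, the subcategory `⟨P₁, P₂⟩`, dual cotwists and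
spherification functors.
-/

open CategoryTheory Limits Pretriangulated

namespace Pool.Agent.Helper32.PObj

universe w u v u' v'

section

variable (k : Type w) [Field k]
variable {A : Type u} [Category.{v} A] [Preadditive A] [Linear k A] [HasShift A ℤ]

/-- An object `Q` is `d`-Calabi-Yau if there is an isomorphism
`Hom(Q, X) ≅ Hom(X, Q⟦d⟧)^∨`, natural in the object `X`. (Replacing `X` by `X⟦i⟧`, this is the
same as an isomorphism of the graded functors `Hom^*(Q, -) ≅ Hom^*(-, Q⟦d⟧)^∨`.) -/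
def IsCalabiYau (d : ℤ) (Q : A) : Prop :=
  ∃ η : ∀ X : A, (Q ⟶ X) ≃ₗ[k] Module.Dual k (X ⟶ Q⟦d⟧),
    ∀ (X Y : A) (g : X ⟶ Y) (u : Q ⟶ X) (v : Y ⟶ Q⟦d⟧), η Y (u ≫ g) v = η X u (g ≫ v)

/-- The `m`-th power `tᵐ : P ⟶ P⟦m * d⟧` of a morphism `t : P ⟶ P⟦d⟧`, in the graded
endomorphism algebra `End^*(P)`. -/
noncomputable def shiftedPow {P : A} {d : ℤ} (t : ShiftedHom P P d) :
    (m : ℕ) → ShiftedHom P P ((m : ℤ) * d)
  | 0 => ShiftedHom.mk₀ _ (by simp) (𝟙 P)
  | m + 1 => (shiftedPow t m).comp t (by push_cast; ring)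

/-- `End^*(P) ≅ k[t]/t^(n+1)` with `deg t = d`: there is a `t : P ⟶ P⟦d⟧` such that
`1, t, …, tⁿ` is a basis of the vector space `End^*(P) = ⨁_j Hom(P, P⟦j⟧)` and `t^(n+1) = 0`. -/
def HasTruncatedPolynomialEnd (n : ℕ) (d : ℤ) (P : A) : Prop :=
  ∃ t : ShiftedHom P P d,
    LinearIndependent k (fun i : Fin (n + 1) =>
      DirectSum.lof k ℤ (fun j => ShiftedHom P P j) (((i : ℕ) : ℤ) * d) (shiftedPow t i)) ∧
    Submodule.span k (Set.range (fun i : Fin (n + 1) =>
      DirectSum.lof k ℤ (fun j => ShiftedHom P P j) (((i : ℕ) : ℤ) * d) (shiftedPow t i))) = ⊤ ∧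
    shiftedPow t (n + 1) = 0

/-- `P` is a `ℙⁿ[d]`-object: `End^*(P) ≅ k[t]/t^(n+1)` with `deg t = d`, and `P` is
`(n * d)`-Calabi-Yau. -/
def IsPObject (n : ℕ) (d : ℤ) (P : A) : Prop :=
  HasTruncatedPolynomialEnd k n d P ∧ IsCalabiYau k (n * d) P

end

section

variable {A : Type u} [Category.{v} A] [Preadditive A] [HasZeroObject A] [HasShift A ℤ]
  [∀ n : ℤ, (shiftFunctor A n).Additive] [Pretriangulated A]

/-- The property of being one of the two objects `P₁` and `P₂`. -/
def isOneOf (P₁ P₂ : A) : ObjectProperty A := fun X => X = P₁ ∨ X = P₂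

instance (P₁ P₂ : A) : (isOneOf P₁ P₂).Nonempty := ⟨P₁, Or.inl rfl⟩

/-- `⟨P₁, P₂⟩`: the smallest thick triangulated subcategory containing `P₁` and `P₂`, i.e. the
closure of `{P₁, P₂}` under shifts, extensions (cones), finite products and retracts. -/
noncomputable abbrev thick (P₁ P₂ : A) : ObjectProperty A := (isOneOf P₁ P₂).triangEnvelope

/-- `P₁` as an object of `⟨P₁, P₂⟩`. -/
def thick.fst (P₁ P₂ : A) : (thick P₁ P₂).FullSubcategory :=
  ⟨P₁, ObjectProperty.le_triangEnvelope _ _ (Or.inl rfl)⟩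

/-- `P₂` as an object of `⟨P₁, P₂⟩`. -/
def thick.snd (P₁ P₂ : A) : (thick P₁ P₂).FullSubcategory :=
  ⟨P₂, ObjectProperty.le_triangEnvelope _ _ (Or.inr rfl)⟩

/-- The dual cotwist of a functor `F`: a left adjoint `L` of `F`, and a functor `C'` together
with a natural transformation `α : 𝟭 ⟶ C'` completing the counit `L F ⟶ 𝟭` to a natural
distinguished triangle `L F X ⟶ X ⟶ C' X ⟶ (L F X)⟦1⟧`. -/
structure DualCotwist {B : Type u'} [Category.{v'} B] (F : A ⥤ B) where
  /-- the left adjoint -/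
  L : B ⥤ A
  /-- the adjunction -/
  adj : L ⊣ F
  /-- the dual cotwist functor -/
  C' : A ⥤ A
  /-- the natural transformation `𝟭 ⟶ C'` -/
  α : 𝟭 A ⟶ C'
  /-- the connecting morphism -/
  δ : C' ⟶ (F ⋙ L) ⋙ shiftFunctor A (1 : ℤ)
  distinguished : ∀ X : A, Triangle.mk (adj.counit.app X) (α.app X) (δ.app X) ∈ distTriang A

end

section

variable (k : Type w) [Field k]
variable {A : Type u} [Category.{v} A] [Preadditive A] [Linear k A] [HasZeroObject A]
  [HasShift A ℤ] [∀ n : ℤ, (shiftFunctor A n).Additive] [Pretriangulated A]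

/-- `F` (with dual cotwist `C'`) is a spherification functor for the `ℙⁿ[d]`-object `P`:
(i) there is an isomorphism `C' P ≅ P⟦d⟧`; (ii) the morphism `P ⟶ C' P ≅ P⟦d⟧` is non-zero;
(iii) `F P` is `(n * d + d - 1)`-Calabi-Yau. -/
def IsSpherificationFor {B : Type u'} [Category.{v'} B] [Preadditive B] [Linear k B]
    [HasShift B ℤ] (n : ℕ) (d : ℤ) {F : A ⥤ B} (D : DualCotwist F) (P : A) : Prop :=
  (∃ e : D.C'.obj P ≅ P⟦d⟧, D.α.app P ≫ e.hom ≠ 0) ∧
    IsCalabiYau k (n * d + d - 1) (F.obj P)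

variable (A) in
/-- A `k`-linear triangulated category is algebraic if it is equivalent, as a `k`-linear
triangulated category, to a full triangulated subcategory of the homotopy category of
complexes over some `k`-linear additive category `C` (so that it is enhanced by the dg category
of complexes over `C`). -/
def IsAlgebraicTriangulated : Prop :=
  ∃ (C : Type u') (_ : Category.{v'} C) (_ : Preadditive C) (_ : Linear k C)
    (_ : HasZeroObject C) (_ : HasBinaryBiproducts C)
    (ι : A ⥤ HomotopyCategory C (ComplexShape.up ℤ)) (_ : ι.CommShift ℤ),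
    ι.Full ∧ ι.Faithful ∧ ι.Additive ∧ Functor.Linear k ι ∧ ι.IsTriangulated

end

end Pool.Agent.Helper32.PObj
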