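import Mathlib.Tactic
import Mathlib.CategoryTheory.Triangulated.Generators
import Mathlib.CategoryTheory.Shift.ShiftedHom
import Mathlib.CategoryTheory.Shift.Linear
import Mathlib.LinearAlgebra.Dual.Lemmas
import Mathlib.Algebra.DirectSum.Module
import Mathlib.LinearAlgebra.FiniteDimensional.Lemmas

/-!
# Dévissage for Calabi-Yau objects and for finite-dimensionality
-/

set_option linter.unusedVariables false
set_option linter.unusedSectionVars false

open CategoryTheory Limits Pretriangulated ZeroObject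

namespace Pool.Agent.Helper32.PObj

universe u v w

/-- Extension of functionals. -/
lemma exists_dual_extend {k V W : Type*} [Field k] [AddCommGroup V] [Module k V]
    [AddCommGroup W] [Module k W] (A : V →ₗ[k] W) (ξ : Module.Dual k V)
    (h : ∀ v, A v = 0 → ξ v = 0) : ∃ η : Module.Dual k W, ∀ v, η (A v) = ξ v := by
  have : ξ ∈ LinearMap.range A.dualMap := by
    rw [LinearMap.range_dualMap_eq_dualAnnihilator_ker, Submodule.mem_dualAnnihilator]
    intro v hv
    exact h v hv
  obtain ⟨η, hη⟩ := this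
  exact ⟨η, fun v => by rw [← hη]; rfl⟩

variable (k : Type w) [Field k]
variable {A : Type u} [Category.{v} A] [Preadditive A] [Linear k A]

section Pairing

variable {k} in
/-- The map `Hom(Q, X) → Hom(X, S)^∨` attached to a functional `τ` on `Hom(Q, S)`. -/
noncomputable def pairing {Q S : A} (τ : (Q ⟶ S) →ₗ[k] k) (X : A) :
    (Q ⟶ X) →ₗ[k] Module.Dual k (X ⟶ S) :=
  LinearMap.mk₂ k (fun u v => τ (u ≫ v))
    (by intros; simp) (by intros; simp) (by intros; simp) (by intros; simp)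

variable {k}

@[simp]
lemma pairing_apply {Q S : A} (τ : (Q ⟶ S) →ₗ[k] k) {X : A} (u : Q ⟶ X) (v : X ⟶ S) :
    pairing τ X u v = τ (u ≫ v) := rfl

lemma pairing_bijective_of_retract {Q S : A} (τ : (Q ⟶ S) →ₗ[k] k) {X Y : A} (r : Retract X Y)
    (h : Function.Bijective (pairing τ Y)) : Function.Bijective (pairing τ X) := by
  constructor
  · rw [← LinearMap.ker_eq_bot, LinearMap.ker_eq_bot']
    intro u hu
    have : u ≫ r.i = 0 := by
      apply h.1
      rw [map_zero]
      ext v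
      have := LinearMap.congr_fun hu (r.i ≫ v)
      simpa using this
    have h' := congr_arg (· ≫ r.r) this
    simpa using h'
  · intro ξ
    obtain ⟨u, hu⟩ := h.2 (ξ.comp (Linear.leftComp k S r.i))
    refine ⟨u ≫ r.r, ?_⟩
    ext v
    have := LinearMap.congr_fun hu (r.r ≫ v)
    simpa using this

lemma pairing_five {Q S W X Y Z V : A} (τ : (Q ⟶ S) →ₗ[k] k)
    (e : W ⟶ X) (f : X ⟶ Y) (g : Y ⟶ Z) (h : Z ⟶ V)
    (hef : e ≫ f = 0) (hgh : g ≫ h = 0)
    (ex₁ : ∀ v : X ⟶ S, e ≫ v = 0 → ∃ v', v = f ≫ v')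
    (ex₂ : ∀ v : Y ⟶ S, f ≫ v = 0 → ∃ v', v = g ≫ v')
    (cx₁ : ∀ u : Q ⟶ Y, u ≫ g = 0 → ∃ x, u = x ≫ f)
    (cx₂ : ∀ u : Q ⟶ Z, u ≫ h = 0 → ∃ x, u = x ≫ g)
    (h₁ : Function.Bijective (pairing τ X)) (h₃ : Function.Bijective (pairing τ Z))
    (h₁' : Function.Injective (pairing τ V))
    (h₃' : Function.Surjective (pairing τ W)) :
    Function.Bijective (pairing τ Y) := by
  constructor
  · rw [← LinearMap.ker_eq_bot, LinearMap.ker_eq_bot']
    intro u hu
    have hu' : ∀ v : Y ⟶ S, τ (u ≫ v) = 0 := fun v => LinearMap.congr_fun hu v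
    have hug : u ≫ g = 0 := by
      apply h₃.1
      rw [map_zero]
      ext v
      simpa using hu' (g ≫ v)
    obtain ⟨x, rfl⟩ := cx₁ u hug
    obtain ⟨ξ, hξ⟩ := exists_dual_extend (Linear.leftComp k S e)
      (pairing τ X x) (by
        intro v hv
        obtain ⟨v', hv'⟩ := ex₁ v hv
        have := hu' v'
        rw [Category.assoc] at this
        rw [hv']
        exact this)
    obtain ⟨z, rfl⟩ := h₃' ξ
    have hx : x = z ≫ e := by
      apply h₁.1
      ext v
      have := hξ v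
      rw [Linear.leftComp_apply, pairing_apply] at this
      rw [← this, pairing_apply, Category.assoc]
    rw [hx, Category.assoc, hef, comp_zero]
  · intro ξ
    obtain ⟨z, hz⟩ := h₃.2 (ξ.comp (Linear.leftComp k S g))
    have hz' : ∀ v : Z ⟶ S, τ (z ≫ v) = ξ (g ≫ v) := fun v => LinearMap.congr_fun hz v
    have hzh : z ≫ h = 0 := by
      apply h₁'
      rw [map_zero]
      ext v
      rw [pairing_apply, Category.assoc, hz', ← Category.assoc, hgh,
        zero_comp, map_zero]
      rfl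
    obtain ⟨u₀, rfl⟩ := cx₂ z hzh
    obtain ⟨η, hη⟩ := exists_dual_extend (Linear.leftComp k S f)
      (ξ - pairing τ Y u₀) (by
        intro v hv
        obtain ⟨v', rfl⟩ := ex₂ v hv
        have := hz' v'
        rw [LinearMap.sub_apply, pairing_apply, ← this, Category.assoc, sub_self])
    obtain ⟨x, rfl⟩ := h₁.2 η
    refine ⟨u₀ + x ≫ f, ?_⟩
    ext v
    have := hη v
    rw [Linear.leftComp_apply, pairing_apply, LinearMap.sub_apply] at this
    rw [map_add, LinearMap.add_apply, pairing_apply _ (x ≫ f), Category.assoc, this]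
    ring

end Pairing

variable [HasZeroObject A] [HasShift A ℤ] [∀ n : ℤ, (shiftFunctor A n).Additive] [Pretriangulated A]

variable {k}

lemma pairing_bijective_of_dist {Q S : A} (τ : (Q ⟶ S) →ₗ[k] k) (T : Triangle A)
    (hT : T ∈ distTriang A)
    (h₁ : Function.Bijective (pairing τ T.obj₁)) (h₃ : Function.Bijective (pairing τ T.obj₃))
    (h₁' : Function.Injective (pairing τ (T.obj₁⟦(1 : ℤ)⟧)))
    (h₃' : Function.Surjective (pairing τ (T.obj₃⟦(-1 : ℤ)⟧))) :
    Function.Bijective (pairing τ T.obj₂) := by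
  have hTi := inv_rot_of_distTriang T hT
  exact pairing_five τ T.invRotate.mor₁ T.mor₁ T.mor₂ T.mor₃
    (comp_distTriang_mor_zero₁₂ _ hTi) (comp_distTriang_mor_zero₂₃ _ hT)
    (fun v hv => Triangle.yoneda_exact₂ _ hTi v hv)
    (fun v hv => Triangle.yoneda_exact₂ _ hT v hv)
    (fun u hu => Triangle.coyoneda_exact₂ T hT u hu)
    (fun u hu => Triangle.coyoneda_exact₃ T hT u hu) h₁ h₃ h₁' h₃'

/-- The property of objects `X` such that the pairing is perfect for all shifts of `X`. -/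
def perfProp {Q S : A} (τ : (Q ⟶ S) →ₗ[k] k) : ObjectProperty A :=
  fun X => ∀ i : ℤ, Function.Bijective (pairing τ (X⟦i⟧))

instance {Q S : A} (τ : (Q ⟶ S) →ₗ[k] k) : (perfProp τ).IsStableUnderRetracts where
  of_retract r h i := pairing_bijective_of_retract τ (r.map (shiftFunctor A i)) (h i)

instance {Q S : A} (τ : (Q ⟶ S) →ₗ[k] k) : (perfProp τ).IsStableUnderShift ℤ where
  isStableUnderShiftBy a := ⟨fun X hX i =>
    pairing_bijective_of_retract τ
      (((shiftFunctorAdd A a i).app X).symm.retract) (hX (a + i))⟩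

instance {Q S : A} (τ : (Q ⟶ S) →ₗ[k] k) : (perfProp τ).IsTriangulatedClosed₂ :=
  .mk' (fun T hT h₁ h₃ i => by
    have hTi := Triangle.shift_distinguished T hT i
    refine pairing_bijective_of_dist τ _ hTi (h₁ i) (h₃ i) ?_ ?_
    · exact (pairing_bijective_of_retract τ
        (((shiftFunctorAdd A i 1).app T.obj₁).symm.retract) (h₁ (i + 1))).1
    · exact (pairing_bijective_of_retract τ
        (((shiftFunctorAdd A i (-1)).app T.obj₃).symm.retract) (h₃ (i + (-1)))).2)

instance {Q S : A} (τ : (Q ⟶ S) →ₗ[k] k) : (perfProp τ).ContainsZero where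
  exists_zero := ⟨0, isZero_zero A, fun i => by
    have h : IsZero ((0 : A)⟦i⟧) := (shiftFunctor A i).map_isZero (isZero_zero A)
    constructor
    · intro x y _
      exact h.eq_of_tgt x y
    · intro ξ
      refine ⟨0, ?_⟩
      ext v
      rw [h.eq_of_src v 0, map_zero, map_zero]⟩

instance {Q S : A} (τ : (Q ⟶ S) →ₗ[k] k) : (perfProp τ).IsTriangulated where

section Finite

variable (k)

/-- Finite-dimensionality of the graded `Hom`-space. -/
def HF (X Y : A) : Prop :=
  (∀ i : ℤ, Module.Finite k (X ⟶ Y⟦i⟧)) ∧ {i : ℤ | ¬ Subsingleton (X ⟶ Y⟦i⟧)}.Finite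

variable {k}

lemma HF.of_retract_right {X Y Y' : A} (r : Retract Y Y') (h : HF k X Y') : HF k X Y := by
  have inj : ∀ i : ℤ, Function.Injective (Linear.rightComp k X (r.i⟦i⟧')) := fun i => by
    intro u v huv
    have := congr_arg (· ≫ r.r⟦i⟧') huv
    simpa [← Functor.map_comp] using this
  refine ⟨fun i => ?_, h.2.subset (fun i hi => ?_)⟩
  · have := h.1 i
    exact Module.Finite.of_injective _ (inj i)
  · intro hsub
    exact hi ((inj i).subsingleton)

lemma HF.of_retract_left {X X' Y : A} (r : Retract X X') (h : HF k X' Y) : HF k X Y := by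
  have inj : ∀ i : ℤ, Function.Injective (Linear.leftComp k (Y⟦i⟧) r.r) := fun i => by
    intro u v huv
    have := congr_arg (r.i ≫ ·) huv
    simpa using this
  refine ⟨fun i => ?_, h.2.subset (fun i hi => ?_)⟩
  · have := h.1 i
    exact Module.Finite.of_injective _ (inj i)
  · intro hsub
    exact hi ((inj i).subsingleton)

lemma HF.shift_right {X Y : A} (h : HF k X Y) (a : ℤ) : HF k X (Y⟦a⟧) := by
  have inj : ∀ i : ℤ, Function.Injective
      (Linear.rightComp k X ((shiftFunctorAdd A a i).inv.app Y)) := fun i => by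
    intro u v huv
    have := congr_arg (· ≫ (shiftFunctorAdd A a i).hom.app Y) huv
    simpa using this
  refine ⟨fun i => ?_, ?_⟩
  · have := h.1 (a + i)
    exact Module.Finite.of_injective _ (inj i)
  · refine (h.2.preimage (f := fun i => a + i) (fun i _ j _ hij => by simpa using hij)).subset
      (fun i hi => ?_)
    intro hsub
    exact hi ((inj i).subsingleton)

lemma HF.shift_left [∀ n : ℤ, (shiftFunctor A n).Linear k] {X Y : A} (h : HF k X Y) (a : ℤ) :
    HF k (X⟦a⟧) Y := by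
  have surj : ∀ i : ℤ, ∃ φ : (X ⟶ Y⟦i - a⟧) →ₗ[k] (X⟦a⟧ ⟶ Y⟦i⟧), Function.Surjective φ :=
    fun i => by
      refine ⟨{ toFun := fun u => u⟦a⟧' ≫ (shiftFunctorAdd' A (i - a) a i (by ring)).inv.app Y
                map_add' := by intros; simp
                map_smul' := by intros; simp [Functor.map_smul] }, fun v => ?_⟩
      refine ⟨(shiftFunctor A a).preimage
        (v ≫ (shiftFunctorAdd' A (i - a) a i (by ring)).hom.app Y), ?_⟩
      simp
  refine ⟨fun i => ?_, ?_⟩
  · have := h.1 (i - a)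
    obtain ⟨φ, hφ⟩ := surj i
    exact Module.Finite.of_surjective _ hφ
  · refine (h.2.preimage (f := fun i => i - a) (fun i _ j _ hij => by simpa using hij)).subset
      (fun i hi => ?_)
    intro hsub
    obtain ⟨φ, hφ⟩ := surj i
    exact hi hφ.subsingleton

lemma finite_of_exact {V₁ V₂ V₃ : Type*} [AddCommGroup V₁] [Module k V₁] [AddCommGroup V₂]
    [Module k V₂] [AddCommGroup V₃] [Module k V₃] (f : V₁ →ₗ[k] V₂) (g : V₂ →ₗ[k] V₃)
    (hfg : ∀ v, f v ∈ LinearMap.ker g) (ex : ∀ v, g v = 0 → ∃ u, f u = v)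
    [Module.Finite k V₁] [Module.Finite k V₃] : Module.Finite k V₂ := by
  have : IsNoetherian k V₂ := isNoetherian_of_range_eq_ker f g (by
    apply le_antisymm
    · rintro _ ⟨v, rfl⟩
      exact hfg v
    · intro v hv
      exact ex v hv)
  infer_instance

lemma subsingleton_of_exact {V₁ V₂ V₃ : Type*} [AddCommGroup V₁] [AddCommGroup V₂]
    [AddCommGroup V₃] (f : V₁ →+ V₂) (g : V₂ →+ V₃)
    (ex : ∀ v, g v = 0 → ∃ u, f u = v)
    [Subsingleton V₁] [Subsingleton V₃] : Subsingleton V₂ := by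
  have : ∀ v : V₂, v = 0 := fun v => by
    obtain ⟨u, hu⟩ := ex v (Subsingleton.elim _ _)
    rw [← hu, Subsingleton.elim u 0, map_zero]
  exact ⟨fun x y => by rw [this x, this y]⟩

lemma ex_rightComp {X X₁ X₂ X₃ : A} (f : X₁ ⟶ X₂) (g : X₂ ⟶ X₃) (hfg : f ≫ g = 0)
    (ex : ∀ u : X ⟶ X₂, u ≫ g = 0 → ∃ v, u = v ≫ f) :
    ∃ (f : (X ⟶ X₁) →ₗ[k] (X ⟶ X₂)) (g : (X ⟶ X₂) →ₗ[k] (X ⟶ X₃)),
      (∀ v, f v ∈ LinearMap.ker g) ∧ (∀ v, g v = 0 → ∃ u, f u = v) := by
  refine ⟨Linear.rightComp k X f, Linear.rightComp k X g, fun v => ?_, fun v hv => ?_⟩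
  · rw [LinearMap.mem_ker, Linear.rightComp_apply, Linear.rightComp_apply, Category.assoc,
      hfg, comp_zero]
  · obtain ⟨u, hu⟩ := ex v hv
    exact ⟨u, hu.symm⟩

lemma HF.ext_right {X : A} (T : Triangle A) (hT : T ∈ distTriang A)
    (h₁ : HF k X T.obj₁) (h₃ : HF k X T.obj₃) : HF k X T.obj₂ := by
  have ex : ∀ i : ℤ, ∃ (f : (X ⟶ T.obj₁⟦i⟧) →ₗ[k] (X ⟶ T.obj₂⟦i⟧))
      (g : (X ⟶ T.obj₂⟦i⟧) →ₗ[k] (X ⟶ T.obj₃⟦i⟧)), (∀ v, f v ∈ LinearMap.ker g) ∧
      (∀ v, g v = 0 → ∃ u, f u = v) := fun i => by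
    have hTi := Triangle.shift_distinguished T hT i
    exact ex_rightComp ((Triangle.shiftFunctor A i).obj T).mor₁
      ((Triangle.shiftFunctor A i).obj T).mor₂ (comp_distTriang_mor_zero₁₂ _ hTi)
      (fun v hv => Triangle.coyoneda_exact₂ _ hTi v hv)
  refine ⟨fun i => ?_, (h₁.2.union h₃.2).subset (fun i hi => ?_)⟩
  · obtain ⟨f, g, h, h'⟩ := ex i
    have := h₁.1 i
    have := h₃.1 i
    exact finite_of_exact f g h h'
  · by_contra hc
    simp only [Set.mem_union, Set.mem_ofPred_eq, not_or, not_not] at hc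
    obtain ⟨f, g, h, h'⟩ := ex i
    have := hc.1
    have := hc.2
    exact hi (subsingleton_of_exact f.toAddMonoidHom g.toAddMonoidHom h')

lemma HF.ext_left {Y : A} (T : Triangle A) (hT : T ∈ distTriang A)
    (h₁ : HF k T.obj₁ Y) (h₃ : HF k T.obj₃ Y) : HF k T.obj₂ Y := by
  have ex : ∀ i : ℤ, ∃ (f : (T.obj₃ ⟶ Y⟦i⟧) →ₗ[k] (T.obj₂ ⟶ Y⟦i⟧))
      (g : (T.obj₂ ⟶ Y⟦i⟧) →ₗ[k] (T.obj₁ ⟶ Y⟦i⟧)), (∀ v, f v ∈ LinearMap.ker g) ∧
      (∀ v, g v = 0 → ∃ u, f u = v) := fun i => by
    refine ⟨Linear.leftComp k _ T.mor₂, Linear.leftComp k _ T.mor₁, fun v => ?_,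
      fun v hv => ?_⟩
    · rw [LinearMap.mem_ker, Linear.leftComp_apply, Linear.leftComp_apply, ← Category.assoc,
        comp_distTriang_mor_zero₁₂ _ hT, zero_comp]
    · obtain ⟨u, hu⟩ := Triangle.yoneda_exact₂ _ hT v hv
      exact ⟨u, hu.symm⟩
  refine ⟨fun i => ?_, (h₁.2.union h₃.2).subset (fun i hi => ?_)⟩
  · obtain ⟨f, g, h, h'⟩ := ex i
    have := h₁.1 i
    have := h₃.1 i
    exact finite_of_exact f g h h'
  · by_contra hc
    simp only [Set.mem_union, Set.mem_ofPred_eq, not_or, not_not] at hc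
    obtain ⟨f, g, h, h'⟩ := ex i
    have := hc.1
    have := hc.2
    exact hi (subsingleton_of_exact f.toAddMonoidHom g.toAddMonoidHom h')

lemma HF.zero_right (X : A) : HF k X (0 : A) := by
  have h : ∀ i : ℤ, Subsingleton (X ⟶ (0 : A)⟦i⟧) := fun i =>
    ⟨fun u v => ((shiftFunctor A i).map_isZero (isZero_zero A)).eq_of_tgt u v⟩
  refine ⟨fun i => ?_, ?_⟩
  · have := h i
    infer_instance
  · convert Set.finite_empty
    ext i
    simp [h i]

lemma HF.zero_left (Y : A) : HF k (0 : A) Y := by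
  have h : ∀ i : ℤ, Subsingleton ((0 : A) ⟶ Y⟦i⟧) := fun i =>
    ⟨fun u v => (isZero_zero A).eq_of_src u v⟩
  refine ⟨fun i => ?_, ?_⟩
  · have := h i
    infer_instance
  · convert Set.finite_empty
    ext i
    simp [h i]

variable (k)

/-- `HF k X` as a property of the second variable. -/
def hfR (X : A) : ObjectProperty A := fun Y => HF k X Y

/-- `HF k _ Y` as a property of the first variable. -/
def hfL (Y : A) : ObjectProperty A := fun X => HF k X Y

instance (X : A) : (hfR k X).IsStableUnderRetracts where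
  of_retract r h := HF.of_retract_right r h

instance (Y : A) : (hfL k Y).IsStableUnderRetracts where
  of_retract r h := HF.of_retract_left r h

instance (X : A) : (hfR k X).IsStableUnderShift ℤ where
  isStableUnderShiftBy a := ⟨fun _ hY => HF.shift_right hY a⟩

instance [∀ n : ℤ, (shiftFunctor A n).Linear k] (Y : A) : (hfL k Y).IsStableUnderShift ℤ where
  isStableUnderShiftBy a := ⟨fun _ hX => HF.shift_left hX a⟩

instance (X : A) : (hfR k X).IsTriangulatedClosed₂ :=
  .mk' (fun T hT h₁ h₃ => HF.ext_right T hT h₁ h₃)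

instance (Y : A) : (hfL k Y).IsTriangulatedClosed₂ :=
  .mk' (fun T hT h₁ h₃ => HF.ext_left T hT h₁ h₃)

instance (X : A) : (hfR k X).ContainsZero where
  exists_zero := ⟨0, isZero_zero A, HF.zero_right X⟩

instance (Y : A) : (hfL k Y).ContainsZero where
  exists_zero := ⟨0, isZero_zero A, HF.zero_left Y⟩

instance (X : A) : (hfR k X).IsTriangulated where

instance [∀ n : ℤ, (shiftFunctor A n).Linear k] (Y : A) : (hfL k Y).IsTriangulated where

open DirectSum in
/-- From `HF` to finite-dimensionality of the direct sum. -/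
lemma HF.finite_directSum {X Y : A} (h : HF k X Y) :
    Module.Finite k (⨁ i : ℤ, (X ⟶ Y⟦i⟧)) := by
  classical
  obtain ⟨h₁, h₂⟩ := h
  let S := h₂.toFinset
  let φ : (∀ i : S, (X ⟶ Y⟦(i : ℤ)⟧)) →ₗ[k] (⨁ i : ℤ, (X ⟶ Y⟦i⟧)) :=
    { toFun := fun x => ∑ i : S, DirectSum.lof k ℤ (fun i => (X ⟶ Y⟦i⟧)) i (x i)
      map_add' := by
        intro x y
        rw [← Finset.sum_add_distrib]
        exact Finset.sum_congr rfl (fun i _ => by rw [Pi.add_apply, map_add])
      map_smul' := by
        intro r x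
        rw [RingHom.id_apply, Finset.smul_sum]
        exact Finset.sum_congr rfl (fun i _ => by rw [Pi.smul_apply, map_smul]) }
  have : Module.Finite k (∀ i : S, (X ⟶ Y⟦(i : ℤ)⟧)) := by
    have := fun i : S => h₁ i
    infer_instance
  refine Module.Finite.of_surjective φ ?_
  rw [← LinearMap.range_eq_top, eq_top_iff]
  intro z _
  induction z using DirectSum.induction_on with
  | zero => exact Submodule.zero_mem _
  | add x y hx hy => exact Submodule.add_mem _ (hx trivial) (hy trivial)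
  | of i x =>
    by_cases hi : Subsingleton (X ⟶ Y⟦i⟧)
    · rw [Subsingleton.elim x 0, map_zero]
      exact Submodule.zero_mem _
    · have hi' : i ∈ S := by simpa [S] using hi
      refine ⟨Pi.single ⟨i, hi'⟩ x, ?_⟩
      change ∑ j : S, DirectSum.lof k ℤ (fun i => (X ⟶ Y⟦i⟧)) j
        ((Pi.single ⟨i, hi'⟩ x : ∀ j : S, (X ⟶ Y⟦(j : ℤ)⟧)) j) = _
      rw [Finset.sum_eq_single ⟨i, hi'⟩]
      · rw [Pi.single_eq_same]
        rfl
      · intro j _ hj
        rw [Pi.single_eq_of_ne hj, map_zero]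
      · intro h
        exact (h (Finset.mem_univ _)).elim

end Finite

/-- The shift functors on a full subcategory are linear. -/
lemma fullSubcategory_shift_linear [∀ n : ℤ, (shiftFunctor A n).Linear k] (P : ObjectProperty A)
    [P.IsStableUnderShift ℤ] (n : ℤ) : (shiftFunctor P.FullSubcategory n).Linear k where
  map_smul {X Y} f r := by
    apply P.ι.map_injective
    rw [← cancel_mono ((P.ι.commShiftIso n).hom.app Y), Functor.commShiftIso_hom_naturality,
      Functor.map_smul, Functor.map_smul, Linear.comp_smul, Functor.map_smul, Linear.smul_comp,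
      Functor.commShiftIso_hom_naturality]

end Pool.Agent.Helper32.PObj
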