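import Mathlib.Tactic
import Mathlib.Algebra.Homology.HomotopyCategory.Triangulated
import Mathlib.CategoryTheory.Shift.ShiftedHom

/-!
# Morphisms in homotopy categories of complexes: generalities
-/

set_option linter.unusedVariables false
set_option linter.unusedSectionVars false

open CategoryTheory Limits

namespace Pool.Agent.Helper32.PObj

universe w u v u' v'

variable {k : Type w} [Field k]
variable {V : Type u} [Category.{v} V] [Preadditive V] [Linear k V]
variable {W : Type u'} [Category.{v'} W] [Preadditive W] [Linear k W]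
variable (G : V ⥤ W) [G.Full] [G.Faithful] [G.Additive] [Functor.Linear k G]

/-- The functor from complexes over `V` to the homotopy category of `W`. -/
noncomputable abbrev Psi : CochainComplex V ℤ ⥤ HomotopyCategory W (ComplexShape.up ℤ) :=
  HomotopyCategory.quotient V (ComplexShape.up ℤ) ⋙
    G.mapHomotopyCategory (ComplexShape.up ℤ)

lemma Psi_map_eq_zero_iff {X Y : CochainComplex V ℤ} (φ : X ⟶ Y) :
    (Psi G).map φ = 0 ↔ Nonempty (Homotopy φ 0) := by
  rw [← HomotopyCategory.quotient_map_eq_zero_iff]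
  constructor
  · intro h
    apply (G.mapHomotopyCategory (ComplexShape.up ℤ)).map_injective
    rw [Functor.map_zero]
    exact h
  · intro h
    rw [Functor.comp_map, h, Functor.map_zero]

variable {L : Type*} [AddCommGroup L] [Module k L]

/-- The linear map on shifted morphisms obtained from a linear map to chain maps. -/
noncomputable def shiftedLin {X Y : CochainComplex V ℤ} {a : ℤ} (β : L →ₗ[k] (X ⟶ Y⟦a⟧)) :
    L →ₗ[k] ShiftedHom ((Psi G).obj X) ((Psi G).obj Y) a where
  toFun x := ShiftedHom.map (β x) (Psi G)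
  map_add' x y := by
    rw [map_add]
    exact ShiftedHom.map_add _ _ _
  map_smul' r x := by
    rw [map_smul]
    exact ShiftedHom.map_smul _ _ _

lemma shiftedLin_bijective {X Y : CochainComplex V ℤ} {a : ℤ} (β : L →ₗ[k] (X ⟶ Y⟦a⟧))
    (h₁ : ∀ x, Nonempty (Homotopy (β x) 0) → x = 0)
    (h₂ : ∀ φ : X ⟶ Y⟦a⟧, ∃ x, Nonempty (Homotopy (φ - β x) 0)) :
    Function.Bijective (shiftedLin G β) := by
  constructor
  · rw [← LinearMap.ker_eq_bot, LinearMap.ker_eq_bot']
    intro x hx
    apply h₁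
    rw [← Psi_map_eq_zero_iff G]
    have h : (Psi G).map (β x) ≫ ((Psi G).commShiftIso a).hom.app _ = 0 := hx
    rw [← cancel_mono (((Psi G).commShiftIso a).hom.app Y), h, zero_comp]
  · intro g
    obtain ⟨φ, hφ⟩ := (Psi G).map_surjective
      (g ≫ ((Psi G).commShiftIso a).inv.app Y)
    obtain ⟨x, hx⟩ := h₂ φ
    refine ⟨x, ?_⟩
    rw [← Psi_map_eq_zero_iff G, Functor.map_sub, sub_eq_zero] at hx
    change (Psi G).map (β x) ≫ ((Psi G).commShiftIso a).hom.app _ = g
    rw [← hx, hφ, Category.assoc, Iso.inv_hom_id_app]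
    exact Category.comp_id _

/-- The linear equivalence given by `shiftedLin`. -/
noncomputable def shiftedLinEquiv {X Y : CochainComplex V ℤ} {a : ℤ} (β : L →ₗ[k] (X ⟶ Y⟦a⟧))
    (h₁ : ∀ x, Nonempty (Homotopy (β x) 0) → x = 0)
    (h₂ : ∀ φ : X ⟶ Y⟦a⟧, ∃ x, Nonempty (Homotopy (φ - β x) 0)) :
    L ≃ₗ[k] ShiftedHom ((Psi G).obj X) ((Psi G).obj Y) a :=
  LinearEquiv.ofBijective (shiftedLin G β) (shiftedLin_bijective G β h₁ h₂)

lemma shiftedLinEquiv_apply {X Y : CochainComplex V ℤ} {a : ℤ} (β : L →ₗ[k] (X ⟶ Y⟦a⟧))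
    (h₁ : ∀ x, Nonempty (Homotopy (β x) 0) → x = 0)
    (h₂ : ∀ φ : X ⟶ Y⟦a⟧, ∃ x, Nonempty (Homotopy (φ - β x) 0)) (x : L) :
    shiftedLinEquiv G β h₁ h₂ x = ShiftedHom.map (β x) (Psi G) := rfl

lemma map_comp_eq {X Y Z : CochainComplex V ℤ} {a b c : ℤ} (φ : ShiftedHom X Y a)
    (ψ : ShiftedHom Y Z b) (h : b + a = c) (χ : ShiftedHom X Z c) (hχ : φ.comp ψ h = χ) :
    (φ.map (Psi G)).comp (ψ.map (Psi G)) h = χ.map (Psi G) := by
  rw [← ShiftedHom.map_comp, hχ]

end Pool.Agent.Helper32.PObj
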