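import Pool.Agent.Helper32.PObj.NoGo
import Pool.Agent.Helper32.PObj.Gen

/-!
# Construction of the model in a homotopy category of complexes
-/

set_option linter.unusedVariables false
set_option linter.unusedSectionVars false

open CategoryTheory Limits Pretriangulated ZeroObject

namespace Pool.Agent.Helper32.PObj

universe w u v u' v'

variable {k : Type w} [Field k] {n : ℕ} {d : ℤ} [hn : Fact (3 ≤ n)] [hd : Fact (d ≠ 0)]

/-- The linear map `piece i j a → Hom(cplx i, (cplx j)⟦a⟧)`. -/
noncomputable def basicLin (i j : Bool) (a : ℤ) :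
    piece k n d i j a →ₗ[k] (cplx (k := k) (n := n) (d := d) i ⟶ (cplx j)⟦a⟧) where
  toFun x := basicMap x
  map_add' x y := basicMap_add x y
  map_smul' r x := basicMap_smul r x

lemma basicLin_h₁ (i j : Bool) (a : ℤ) (x : piece k n d i j a)
    (h : Nonempty (Homotopy (basicLin i j a x) 0)) : x = 0 := by
  have := c₀_f_zero_of_homotopy _ h.some
  have h' : Obj.c₀ ((basicMap x).f 0) = 0 := this
  rw [c₀_basicMap_f, mul_zero, sgn_zero, one_mul] at h'
  exact Subtype.ext h'

lemma basicLin_h₂ (i j : Bool) (a : ℤ)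
    (φ : cplx (k := k) (n := n) (d := d) i ⟶ (cplx j)⟦a⟧) :
    ∃ x, Nonempty (Homotopy (φ - basicLin i j a x) 0) := by
  refine ⟨⟨Obj.c₀ (φ.f 0), fun h => ?_⟩, nonempty_homotopy_zero _ ?_⟩
  · have := Obj.sz_of_c₀ _ h
    change SZ n d i j (0 + a - 0) at this
    rwa [zero_add, sub_zero] at this
  · rw [HomologicalComplex.sub_f_apply, sub_eq_add_neg, Obj.c₀_add, Obj.c₀_neg]
    change Obj.c₀ (φ.f 0) + - (sgn k (a * 0) * Obj.c₀ (φ.f 0)) = 0
    rw [mul_zero, sgn_zero]
    ring

variable {W : Type u'} [Category.{v'} W] [Preadditive W] [Linear k W]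
variable (G : Obj k n d ⥤ W) [G.Full] [G.Faithful] [G.Additive] [Functor.Linear k G]

/-- The model of the algebra `B` in the homotopy category of `W`. -/
noncomputable def theModel : Model k n d (HomotopyCategory W (ComplexShape.up ℤ)) where
  P i := (Psi G).obj (cplx i)
  E i j a := shiftedLinEquiv G (basicLin i j a) (basicLin_h₁ i j a) (basicLin_h₂ i j a)
  E_comp := by
    intro i j l a b c x y h z hz
    exact map_comp_eq G _ _ h _ (basicMap_comp x y h z hz)

end Pool.Agent.Helper32.PObj
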