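import Pool.Agent.Helper32.PObj.Exist

/-!
# Generation of thick subcategories, and assembly of the counterexample
-/

set_option linter.unusedVariables false
set_option linter.unusedSectionVars false

open CategoryTheory Limits Pretriangulated ZeroObject

namespace Pool.Agent.Helper32.PObj

universe w u v u' v'

section

variable {T : Type u} [Category.{v} T] [Preadditive T] [HasZeroObject T] [HasShift T ℤ]
  [∀ n : ℤ, (shiftFunctor T n).Additive] [Pretriangulated T] [IsTriangulated T]

/-- In the thick subcategory generated by `P`, the property `P` generates. -/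
lemma generates (P : ObjectProperty T) [P.Nonempty]
    (P' : ObjectProperty P.triangEnvelope.FullSubcategory)
    (hP' : ∀ X : P.triangEnvelope.FullSubcategory, P X.obj → P' X) [P'.Nonempty] :
    P'.triangEnvelope = ⊤ := by
  let S := P.triangEnvelope
  let Q : ObjectProperty S.FullSubcategory := P'.triangEnvelope
  have hR : (Q.map S.ι).IsStableUnderRetracts :=
    { of_retract := by
        rintro X Y r ⟨Z, hZ, ⟨e⟩⟩
        have hY : S Y := S.prop_of_iso e Z.2
        have hX : S X := ObjectProperty.prop_of_retract S r hY
        let X' : S.FullSubcategory := ⟨X, hX⟩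
        let r' : Retract X' Z :=
          { i := S.ι.preimage (X := X') (Y := Z) (r.i ≫ e.inv)
            r := S.ι.preimage (X := Z) (Y := X') (e.hom ≫ r.r)
            retract := by
              apply S.ι.map_injective
              rw [Functor.map_comp, Functor.map_preimage, Functor.map_preimage, Category.assoc,
                Iso.inv_hom_id_assoc, r.retract]
              exact (S.ι.map_id X').symm }
        exact ⟨X', ObjectProperty.prop_of_retract Q r' hZ, ⟨Iso.refl _⟩⟩ }
  have hle : S ≤ Q.map S.ι := by
    rw [ObjectProperty.triangEnvelope_le_iff]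
    intro X hX
    refine ⟨⟨X, ObjectProperty.le_triangEnvelope _ _ hX⟩, ?_, ⟨Iso.refl _⟩⟩
    exact ObjectProperty.le_triangEnvelope _ _ (hP' _ hX)
  rw [eq_top_iff]
  intro X _
  obtain ⟨Y, hY, ⟨e⟩⟩ := hle X.obj X.property
  exact Q.prop_of_iso (S.ι.preimageIso (X := Y) (Y := X) e) hY

end

section

variable {k : Type w} [Field k] {n : ℕ} {d : ℤ} [hn : Fact (3 ≤ n)] [hd : Fact (d ≠ 0)]
variable {T : Type u} [Category.{v} T] [Preadditive T] [HasZeroObject T] [HasShift T ℤ]
  [∀ n : ℤ, (shiftFunctor T n).Additive] [Pretriangulated T] [IsTriangulated T]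
  [Linear k T] [∀ n : ℤ, (shiftFunctor T n).Linear k]
variable (M₀ : Model k n d T)

/-- The thick subcategory generated by the two objects of a model. -/
noncomputable abbrev Model.thickSub : ObjectProperty T := thick (M₀.P false) (M₀.P true)

/-- The restricted model. -/
noncomputable def Model.M : Model k n d M₀.thickSub.FullSubcategory :=
  M₀.restrict M₀.thickSub (fun i => ObjectProperty.le_triangEnvelope _ _ (by
    cases i
    · exact Or.inl rfl
    · exact Or.inr rfl))

lemma Model.M_generates :
    (isOneOf (M₀.M.P false) (M₀.M.P true)).triangEnvelope = ⊤ := by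
  apply generates
  rintro ⟨X, hX⟩ (rfl | rfl)
  · exact Or.inl rfl
  · exact Or.inr rfl

end

end Pool.Agent.Helper32.PObj
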