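import Pool.Agent.Helper32.PObj.Cplx
import Pool.Agent.Helper32.PObj.Dev
import Pool.Agent.Helper32.PObj.Defs

/-!
# Consequences of a model of the graded algebra `B` in a triangulated category
-/

set_option linter.unusedVariables false
set_option linter.unusedSectionVars false

open CategoryTheory Limits Pretriangulated ZeroObject

namespace Pool.Agent.Helper32.PObj

universe w u v u' v'

variable (k : Type w) [Field k] (n : ℕ) (d : ℤ)

/-- Two objects whose graded endomorphism algebra is the algebra `B`, in a category with shift. -/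
structure Model (A : Type u) [Category.{v} A] [Preadditive A] [Linear k A] [HasShift A ℤ] where
  /-- the two objects -/
  P : Bool → A
  /-- the identification of graded morphisms -/
  E : ∀ (i j : Bool) (a : ℤ), piece k n d i j a ≃ₗ[k] ShiftedHom (P i) (P j) a
  E_comp : ∀ {i j l : Bool} {a b c : ℤ} (x : piece k n d i j a) (y : piece k n d j l b)
    (h : b + a = c) (z : piece k n d i l c)
    (_ : z.1 = sgn k (a * b) * (ind k (NZZ n d i j l a b) * (y.1 * x.1))),
    (E i j a x).comp (E j l b y) h = E i l c z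

namespace Model

variable {k n d} [hn : Fact (3 ≤ n)] [hd : Fact (d ≠ 0)]
variable {A : Type u} [Category.{v} A] [Preadditive A] [Linear k A] [HasShift A ℤ]
variable (M : Model k n d A)

/-- The element `1` of a piece in the support. -/
def one (k : Type w) [Field k] {n : ℕ} {d : ℤ} {i j : Bool} {a : ℤ} (h : SZ n d i j a) :
    piece k n d i j a := ⟨1, fun _ => h⟩

/-- The element `x` of a piece in the support. -/
def elt {k : Type w} [Field k] {n : ℕ} {d : ℤ} {i j : Bool} {a : ℤ} (x : k)
    (h : SZ n d i j a) :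
    piece k n d i j a := ⟨x, fun _ => h⟩

lemma piece_eq_zero {i j : Bool} {a : ℤ} (h : ¬ SZ n d i j a) (x : piece k n d i j a) : x = 0 := by
  by_contra hx
  exact h (piece_sz x (fun h' => hx (Subtype.ext h')))

lemma eq_zero {i j : Bool} {a : ℤ} (h : ¬ SZ n d i j a) (x : ShiftedHom (M.P i) (M.P j) a) :
    x = 0 := by
  obtain ⟨y, rfl⟩ := (M.E i j a).surjective x
  rw [piece_eq_zero h y, map_zero]

lemma E_id (i : Bool) :
    ShiftedHom.mk₀ (0 : ℤ) rfl (𝟙 (M.P i)) = M.E i i 0 (one k (SZ.zero i)) := by
  obtain ⟨x, hx⟩ := (M.E i i 0).surjective (ShiftedHom.mk₀ (0 : ℤ) rfl (𝟙 (M.P i)))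
  have h₁ : (M.E i i 0 x).comp (M.E i i 0 (one k (SZ.zero i))) (zero_add 0) =
      M.E i i 0 (one k (SZ.zero i)) := by
    rw [hx, ShiftedHom.mk₀_id_comp]
  rw [M.E_comp x (one k (SZ.zero i)) (zero_add 0) x (by
    rw [ind_true (NZZ.id_left hn.out (SZ.zero i))]
    simp [one])] at h₁
  rw [← hx, h₁]

variable {A : Type u} [Category.{v} A] [Preadditive A] [Linear k A] [HasShift A ℤ]
variable (M : Model k n d A)

/-- The generator `t` of `End^*(P i)`. -/
noncomputable def t (i : Bool) : ShiftedHom (M.P i) (M.P i) d :=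
  M.E i i d (one k ⟨1, by
    have := hn.out
    cases i <;> simp only [Supp] <;> omega, by simp⟩)

lemma sz_ii {n : ℕ} {d : ℤ} (i : Bool) {m : ℕ} (h : m ≤ n) : SZ n d i i ((m : ℤ) * d) :=
  ⟨m, by cases i <;> simpa only [Supp] using h, rfl⟩

lemma not_sz_ii (i : Bool) {m : ℕ} (h : n < m) : ¬ SZ n d i i ((m : ℤ) * d) := by
  rintro ⟨a, ha, ha'⟩
  obtain rfl := mul_right_inj_aux hd.out ha'
  cases i <;> simp only [Supp] at ha <;> omega

lemma pow_t (i : Bool) (m : ℕ) (h : m ≤ n) :
    ∃ (c : k) (hc : c ≠ 0), shiftedPow (M.t i) m = M.E i i _ (elt c (sz_ii i h)) := by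
  induction m with
  | zero =>
    refine ⟨1, one_ne_zero, ?_⟩
    have h₀ : ∀ (z : ℤ) (hz : z = 0) (hS : SZ n d i i z), ShiftedHom.mk₀ z hz (𝟙 (M.P i)) =
        M.E i i z (elt 1 hS) := by
      intro z hz hS
      subst hz
      exact M.E_id i
    exact h₀ _ _ _
  | succ m hm =>
    obtain ⟨c, hc, hc'⟩ := hm (by omega)
    refine ⟨sgn k (((m : ℤ) * d) * d) * c, mul_ne_zero (sgn_ne_zero _) hc, ?_⟩
    rw [shiftedPow, hc', t]
    refine M.E_comp _ _ _ _ ?_
    have h₁ : NZZ n d i i i ((m : ℤ) * d) d := by
      refine ⟨m, 1, ?_, rfl, by simp⟩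
      cases i <;> simp only [NZ] <;> omega
    rw [ind_true h₁]
    simp [elt, one]

lemma pow_t_ne_zero (i : Bool) (m : ℕ) (h : m ≤ n) : shiftedPow (M.t i) m ≠ 0 := by
  obtain ⟨c, hc, hc'⟩ := M.pow_t i m h
  rw [hc']
  intro h0
  have := (LinearEquiv.map_eq_zero_iff _).1 h0
  exact hc (congr_arg Subtype.val this)

lemma hasTruncatedPolynomialEnd (i : Bool) : HasTruncatedPolynomialEnd k n d (M.P i) := by
  refine ⟨M.t i, ?_, ?_, ?_⟩
  · rw [linearIndependent_iff']
    intro s g hg j hj
    have h₁ := congr_arg (DirectSum.component k ℤ (fun j => ShiftedHom (M.P i) (M.P i) j)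
      (((j : ℕ) : ℤ) * d)) hg
    rw [map_sum, map_zero] at h₁
    rw [Finset.sum_eq_single j] at h₁
    · rw [map_smul, DirectSum.component.lof_self] at h₁
      exact (smul_eq_zero.1 h₁).resolve_right (M.pow_t_ne_zero i j (by omega))
    · intro j' _ hj'
      rw [map_smul, DirectSum.component.of, dif_neg, smul_zero]
      intro h
      have := mul_right_inj_aux hd.out h
      exact hj' (Fin.ext this)
    · intro h
      exact (h hj).elim
  · rw [eq_top_iff]
    intro z _
    induction z using DirectSum.induction_on with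
    | zero => exact Submodule.zero_mem _
    | add x y hx hy => exact Submodule.add_mem _ (hx trivial) (hy trivial)
    | of j x =>
      by_cases hj : SZ n d i i j
      · obtain ⟨m, hm, rfl⟩ := hj
        have hm' : m ≤ n := by cases i <;> simpa only [Supp] using hm
        obtain ⟨c, hc, hc'⟩ := M.pow_t i m hm'
        obtain ⟨y, rfl⟩ := (M.E i i _).surjective x
        have : M.E i i ((m : ℤ) * d) y = (y.1 * c⁻¹) • shiftedPow (M.t i) m := by
          rw [hc', ← map_smul]
          congr 1
          apply Subtype.ext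
          simp [elt, hc]
        rw [this]
        change DirectSum.lof k ℤ (fun j => ShiftedHom (M.P i) (M.P i) j) _ _ ∈ _
        rw [map_smul]
        exact Submodule.smul_mem _ _ (Submodule.subset_span ⟨⟨m, by omega⟩, rfl⟩)
      · rw [M.eq_zero hj x, map_zero]
        exact Submodule.zero_mem _
  · exact M.eq_zero (not_sz_ii i (by omega)) _

/-- The trace. -/
noncomputable def trace (i : Bool) : ShiftedHom (M.P i) (M.P i) ((n : ℤ) * d) →ₗ[k] k :=
  (piece k n d i i _).subtype.comp (M.E i i _).symm.toLinearMap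

@[simp]
lemma trace_E (i : Bool) (x : piece k n d i i ((n : ℤ) * d)) : M.trace i (M.E i i _ x) = x.1 := by
  simp [trace]

lemma trace_comp (i j : Bool) {s s' : ℤ} (h : s' + s = n * d) (hs : SZ n d i j s)
    (x : piece k n d i j s) (y : piece k n d j i s') :
    M.trace i ((M.E i j s x).comp (M.E j i s' y) h) = sgn k (s * s') * (y.1 * x.1) := by
  have h₁ : NZZ n d i j i s s' := NZZ.of_dual hn.out i j (by rw [← h, add_comm]) hs
  rw [M.E_comp x y h (elt (sgn k (s * s') * (y.1 * x.1)) (sz_ii i le_rfl)) (by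
    rw [ind_true h₁]; simp [elt]), trace_E]
  rfl

section Shift

variable [∀ n : ℤ, (shiftFunctor A n).Additive] [∀ n : ℤ, (shiftFunctor A n).Linear k]

/-- Unshifting morphisms. -/
noncomputable def unshift (k : Type w) [Field k] {A : Type u} [Category.{v} A] [Preadditive A]
    [Linear k A] [HasShift A ℤ]
    [∀ n : ℤ, (shiftFunctor A n).Additive] [∀ n : ℤ, (shiftFunctor A n).Linear k]
    (X Y : A) {s' s c : ℤ} (h : s' + s = c) :
    ShiftedHom X Y s' →ₗ[k] (X⟦s⟧ ⟶ Y⟦c⟧) where
  toFun v := v⟦s⟧' ≫ (shiftFunctorAdd' A s' s c h).inv.app Y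
  map_add' := by intros; simp
  map_smul' := by intros; simp [Functor.map_smul]

lemma unshift_surjective (X Y : A) {s' s c : ℤ} (h : s' + s = c) :
    Function.Surjective (unshift k X Y h) := fun v => by
  refine ⟨(shiftFunctor A s).preimage
    (v ≫ (shiftFunctorAdd' A s' s c h).hom.app Y), ?_⟩
  simp [unshift]

lemma comp_unshift {X Y Z : A} {s' s c : ℤ} (h : s' + s = c) (u : ShiftedHom Z X s)
    (v : ShiftedHom X Y s') : u ≫ unshift k X Y h v = u.comp v h := rfl

lemma pairing_bijective (i j : Bool) (s : ℤ) :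
    Function.Bijective (pairing (M.trace i) ((M.P j)⟦s⟧)) := by
  have hs : (n * d - s) + s = n * d := by ring
  by_cases h : SZ n d i j s
  · have h' : SZ n d j i (n * d - s) := (SZ.dual_iff hn.out i j (by ring)).1 h
    have key : ∀ (x : piece k n d i j s) (y : piece k n d j i (n * d - s)),
        pairing (M.trace i) ((M.P j)⟦s⟧) (M.E i j s x)
          (unshift k _ _ hs (M.E j i _ y)) = sgn k (s * (n * d - s)) * (y.1 * x.1) := by
      intro x y
      rw [pairing_apply]
      erw [comp_unshift]
      exact M.trace_comp i j hs h x y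
    constructor
    · rw [← LinearMap.ker_eq_bot, LinearMap.ker_eq_bot']
      intro u hu
      obtain ⟨x, rfl⟩ := (M.E i j s).surjective u
      have h₁ := key x (one k h')
      rw [hu] at h₁
      have h₂ : x.1 = 0 := by
        have h₃ : (0 : k) = sgn k (s * (n * d - s)) * (1 * x.1) := h₁
        rw [one_mul] at h₃
        exact (mul_eq_zero.1 h₃.symm).resolve_left (sgn_ne_zero _)
      have : x = 0 := Subtype.ext h₂
      rw [this, map_zero]
    · intro ξ
      let c := ξ (unshift k _ _ hs (M.E j i _ (one k h')))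
      refine ⟨M.E i j s (elt (sgn k (s * (n * d - s)) * c) h), ?_⟩
      ext v
      obtain ⟨v, rfl⟩ := unshift_surjective (k := k) (M.P j) (M.P i) hs v
      obtain ⟨y, rfl⟩ := (M.E j i _).surjective v
      rw [key]
      have hy : y = y.1 • one k h' := by
        apply Subtype.ext
        simp [one]
      have : ξ (unshift k _ _ hs (M.E j i _ y)) = y.1 * c := by
        conv_lhs => rw [hy]
        rw [map_smul, map_smul, map_smul, smul_eq_mul]
      rw [this]
      simp only [elt]
      linear_combination (y.1 * c) * sgn_mul_self (k := k) (s * (n * d - s))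
  · have h' : ¬ SZ n d j i (n * d - s) :=
      fun h' => h ((SZ.dual_iff hn.out i j (by ring)).2 h')
    constructor
    · intro u v _
      rw [M.eq_zero h u, M.eq_zero h v]
    · intro ξ
      refine ⟨0, ?_⟩
      ext v
      obtain ⟨v, rfl⟩ := unshift_surjective (k := k) (M.P j) (M.P i) hs v
      rw [M.eq_zero h' v, map_zero, map_zero, map_zero]
      exact (map_zero ξ).symm

end Shift

section Triang

variable [HasZeroObject A] [∀ n : ℤ, (shiftFunctor A n).Additive]
  [∀ n : ℤ, (shiftFunctor A n).Linear k] [Pretriangulated A]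

lemma perfProp_P (i j : Bool) : perfProp (M.trace i) (M.P j) := fun s => M.pairing_bijective i j s

lemma prop_of_generates (hgen : (isOneOf (M.P false) (M.P true)).triangEnvelope = ⊤)
    (Q : ObjectProperty A) [Q.IsStableUnderRetracts] [Q.IsTriangulated]
    (h : ∀ i, Q (M.P i)) (X : A) : Q X := by
  have h₁ : (isOneOf (M.P false) (M.P true)).triangEnvelope ≤ Q := by
    rw [ObjectProperty.triangEnvelope_le_iff]
    rintro _ (rfl | rfl)
    · exact h false
    · exact h true
  exact h₁ X (by rw [hgen]; trivial)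

lemma isCalabiYau (hgen : (isOneOf (M.P false) (M.P true)).triangEnvelope = ⊤) (i : Bool) :
    IsCalabiYau k (n * d) (M.P i) := by
  have h : ∀ X : A, Function.Bijective (pairing (M.trace i) X) := fun X => by
    have h₁ := M.prop_of_generates hgen (perfProp (M.trace i)) (fun j => M.perfProp_P i j) X 0
    exact pairing_bijective_of_retract _ ((shiftFunctorZero A ℤ).app X).symm.retract h₁
  refine ⟨fun X => LinearEquiv.ofBijective (pairing (M.trace i) X) (h X), ?_⟩
  intro X Y g u v
  change M.trace i ((u ≫ g) ≫ v) = M.trace i (u ≫ g ≫ v)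
  rw [Category.assoc]

lemma isPObject (hgen : (isOneOf (M.P false) (M.P true)).triangEnvelope = ⊤) (i : Bool) :
    IsPObject k n d (M.P i) :=
  ⟨M.hasTruncatedPolynomialEnd i, M.isCalabiYau hgen i⟩

lemma hf_P (i j : Bool) : HF k (M.P i) (M.P j) := by
  refine ⟨fun a => ?_, ?_⟩
  · exact Module.Finite.of_surjective (M.E i j a).toLinearMap (M.E i j a).surjective
  · refine ((Set.finite_Iic n).image (fun m : ℕ => (m : ℤ) * d)).subset (fun a ha => ?_)
    by_contra h
    apply ha
    have h₁ : ¬ SZ n d i j a := by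
      rintro ⟨m, hm, rfl⟩
      refine h ⟨m, ?_, rfl⟩
      have := hn.out
      cases i <;> cases j <;> simp only [Supp, Set.mem_Iic] at * <;> omega
    exact ⟨fun x y => by rw [M.eq_zero h₁ x, M.eq_zero h₁ y]⟩

lemma hf (hgen : (isOneOf (M.P false) (M.P true)).triangEnvelope = ⊤) (X Y : A) : HF k X Y := by
  have h₁ : ∀ i, HF k (M.P i) Y := fun i =>
    M.prop_of_generates hgen (hfR k (M.P i)) (fun j => M.hf_P i j) Y
  exact M.prop_of_generates hgen (hfL k Y) h₁ X

end Triang

/-- Restriction of a model to a full subcategory. -/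
noncomputable def restrict (S : ObjectProperty A) [S.IsStableUnderShift ℤ]
    [∀ n : ℤ, (shiftFunctor A n).Additive] [∀ n : ℤ, (shiftFunctor A n).Linear k]
    (h : ∀ i, S (M.P i)) : Model k n d S.FullSubcategory := by
  let Q : Bool → S.FullSubcategory := fun i => ⟨M.P i, h i⟩
  let φ : ∀ (i j : Bool) (a : ℤ),
      ShiftedHom (Q i) (Q j) a →ₗ[k] ShiftedHom (M.P i) (M.P j) a := fun i j a =>
    { toFun := fun u => u.map S.ι
      map_add' := by intros; exact ShiftedHom.map_add _ _ _
      map_smul' := by intros; exact ShiftedHom.map_smul _ _ _ }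
  have hφ : ∀ (i j : Bool) (a : ℤ), Function.Bijective (φ i j a) := fun i j a => by
    constructor
    · intro u v huv
      have : S.ι.map u ≫ (S.ι.commShiftIso a).hom.app _ =
        S.ι.map v ≫ (S.ι.commShiftIso a).hom.app _ := huv
      rw [cancel_mono] at this
      exact S.ι.map_injective this
    · intro v
      let v' : S.ι.obj (Q i) ⟶ (S.ι.obj (Q j))⟦a⟧ := v
      refine ⟨S.ι.preimage (X := Q i) (Y := (Q j)⟦a⟧)
        (v' ≫ (S.ι.commShiftIso a).inv.app (Q j)), ?_⟩
      change S.ι.map _ ≫ (S.ι.commShiftIso a).hom.app (Q j) = v'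
      rw [Functor.map_preimage, Category.assoc, Iso.inv_hom_id_app]
      exact Category.comp_id _
  exact
    { P := Q
      E := fun i j a => (M.E i j a).trans (LinearEquiv.ofBijective (φ i j a) (hφ i j a)).symm
      E_comp := by
        intro i j l a b c x y hc z hz
        apply (hφ i l c).1
        change ShiftedHom.map _ _ = ShiftedHom.map _ _
        rw [ShiftedHom.map_comp]
        have e₁ : ∀ (i j : Bool) (a : ℤ) (x : piece k n d i j a), ShiftedHom.map
          ((M.E i j a).trans (LinearEquiv.ofBijective (φ i j a) (hφ i j a)).symm x) S.ι =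
            M.E i j a x := fun i j a x =>
              (LinearEquiv.ofBijective (φ i j a) (hφ i j a)).apply_symm_apply (M.E i j a x)
        erw [e₁, e₁, e₁]
        exact M.E_comp x y hc z hz }

end Model

end Pool.Agent.Helper32.PObj
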