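import Pool.Agent.Helper32.PObj.Model

/-!
# No functor is a spherification functor for both objects of a model
-/

set_option linter.unusedVariables false
set_option linter.unusedSectionVars false

open CategoryTheory Limits Pretriangulated ZeroObject

namespace Pool.Agent.Helper32.PObj

universe w u v u' v'

namespace Model

variable {k : Type w} [Field k] {n : ℕ} {d : ℤ} [hn : Fact (3 ≤ n)] [hd : Fact (d ≠ 0)]
variable {A : Type u} [Category.{v} A] [Preadditive A] [Linear k A] [HasShift A ℤ]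
variable (M : Model k n d A)

/-- The morphism `f : P₁ ⟶ P₂`. -/
noncomputable def f : M.P false ⟶ M.P true :=
  (ShiftedHom.homEquiv (0 : ℤ) rfl).symm
    (M.E false true 0 (one k ⟨0, by simp only [Supp]; omega, by simp⟩))

lemma mk₀_f : ShiftedHom.mk₀ (0 : ℤ) rfl M.f =
    M.E false true 0 (one k ⟨0, by simp only [Supp]; omega, by simp⟩) :=
  (ShiftedHom.homEquiv (0 : ℤ) rfl).apply_symm_apply _

lemma f_comp_ne_zero (u : M.P true ⟶ (M.P true)⟦d⟧) (hu : u ≠ 0) : M.f ≫ u ≠ 0 := by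
  obtain ⟨x, rfl⟩ := (M.E true true d).surjective u
  have hx : x.1 ≠ 0 := fun h => hu (by
    have : x = 0 := Subtype.ext h
    rw [this, map_zero])
  rw [← ShiftedHom.mk₀_comp (0 : ℤ) rfl, M.mk₀_f]
  have h₁ : SZ n d false true d := ⟨1, by simp only [Supp]; omega, by simp⟩
  have h₂ : NZZ n d false true true 0 d :=
    ⟨0, 1, by simp only [NZ]; omega, by simp, by simp⟩
  rw [M.E_comp _ x _ (elt x.1 h₁) (by rw [ind_true h₂]; simp [one, elt])]
  intro h
  have := (LinearEquiv.map_eq_zero_iff _).1 h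
  exact hx (congr_arg Subtype.val this)

lemma comp_eq_zero [∀ n : ℤ, (shiftFunctor A n).Additive]
    (u : M.P false ⟶ (M.P false)⟦d⟧) (g : (M.P false)⟦d⟧ ⟶ (M.P true)⟦d⟧) :
    u ≫ g = 0 := by
  obtain ⟨g, rfl⟩ := (shiftFunctor A d).map_surjective g
  rw [← ShiftedHom.comp_mk₀ (show ShiftedHom (M.P false) (M.P false) d from u) (0 : ℤ) rfl]
  obtain ⟨x, hx⟩ := (M.E false false d).surjective u
  obtain ⟨y, hy⟩ := (M.E false true 0).surjective (ShiftedHom.mk₀ (0 : ℤ) rfl g)
  have h₂ : ¬ NZZ n d false false true d 0 := by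
    rintro ⟨a, b, h, h', -⟩
    simp only [NZ] at h
    rw [h.1] at h'
    simp only [Nat.cast_zero, zero_mul] at h'
    exact hd.out h'.symm
  rw [← hy, ← hx, M.E_comp x y _ 0 (by rw [ind_false h₂]; simp), map_zero]

variable [HasZeroObject A] [∀ n : ℤ, (shiftFunctor A n).Additive] [Pretriangulated A]

theorem not_spherification {B : Type u'} [Category.{v'} B] [Preadditive B] [Linear k B]
    [HasShift B ℤ] (F : A ⥤ B) (D : DualCotwist F) :
    ¬ (IsSpherificationFor k n d D (M.P false) ∧ IsSpherificationFor k n d D (M.P true)) := by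
  rintro ⟨⟨⟨e₁, h₁⟩, -⟩, ⟨⟨e₂, h₂⟩, -⟩⟩
  have nat := D.α.naturality M.f
  apply M.f_comp_ne_zero _ h₂
  have nat' : M.f ≫ D.α.app (M.P true) = D.α.app (M.P false) ≫ D.C'.map M.f := nat
  rw [← Category.assoc, nat']
  have : (D.α.app (M.P false) ≫ D.C'.map M.f) ≫ e₂.hom =
      (D.α.app (M.P false) ≫ e₁.hom) ≫ (e₁.inv ≫ D.C'.map M.f ≫ e₂.hom) := by simp
  rw [this]
  exact M.comp_eq_zero _ _

end Model

end Pool.Agent.Helper32.PObj
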